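import Mathlib
import Pool.Agent.Lib.BorsukUlam.Basic

attribute [-instance] AddQuantale.instAddLeftMono TotallySeparatedSpace.t2Space
  IsTopologicalTorsor.toContinuousSMul RKHS.instFunLike Fintype.decidableForallFintype
  NumberField.to_charZero Valued.toUniformSpace AddQuantale.instAddRightMono
  RingHomClass.toLinearMapClassNNRat AlgHom.instNonUnitalAlgHomClassOfAlgHomClass
  AlgHom.instContinuousLinearMapClassOfAlgHomClass IdemSemiring.toCanonicallyOrderedAdd
  CStarAlgebra.instOrderClosedTopology GrpTypeEquivalenceGrp.grpGroup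
  RingHomClass.toLinearMapClassRat Nontrivial.to_nonempty IsScalarTower.complexToReal
  CoalgHomClass.toSemilinearMapClass SemilinearIsometryClass.toSemilinearMapClass
  Quantale.instMulRightMono IsSemitopologicalRing.toContinuousNeg IsTopologicalRing.toContinuousNeg
  Zero.instNonempty NonUnitalAlgHomClass.instLinearMapClass bot_nonempty littleWedderburn
  continuousSub_of_discreteTopology LinearOrder.toDecidableEq
  SemilinearIsometryClass.toContinuousSemilinearMapClass AlexandrovDiscrete.toFirstCountable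
  PositiveLinearMap.instContinuousLinearMapClassComplexOfLinearMapClassOfOrderHomClass
  One.instNonempty NonUnitalAlgSemiHomClass.toDistribMulActionSemiHomClass
  Finset.decidableDforallFinset instCoeTCOfCoe Group.IsPerfect.subsingleton_of_isMulCommutative
  Prod.instNonAssocSemiring AddTorsor.nonempty NonarchimedeanAddGroup.toIsTopologicalAddGroup

-- part MP_800a79_co.H62.Poly
section

/-! Polynomial functions on `ℝ³` with a degree bound, and a Bezout-type bound for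
nonsingular zeros. -/

set_option autoImplicit false

namespace Pool.Agent.MP_800a79_co.H62

open Filter Topology Set

abbrev V := Fin 3 → ℝ

/-- polynomial functions of degree at most `n` -/
inductive PD : ℕ → (V → ℝ) → Prop
  | const (n : ℕ) (c : ℝ) : PD n (fun _ => c)
  | add {n : ℕ} {f g : V → ℝ} : PD n f → PD n g → PD n (fun x => f x + g x)
  | mulX {n : ℕ} {f : V → ℝ} (i : Fin 3) : PD n f → PD (n + 1) (fun x => x i * f x)

theorem PD.congr {n : ℕ} {f g : V → ℝ} (h : PD n f) (e : ∀ x, g x = f x) : PD n g := by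
  have : g = f := funext e
  rwa [this]

theorem PD.succ {n : ℕ} {f : V → ℝ} (h : PD n f) : PD (n + 1) f := by
  induction h with
  | const n c => exact PD.const _ c
  | add _ _ h1 h2 => exact h1.add h2
  | mulX i _ h1 => exact h1.mulX i

theorem PD.mono {n k : ℕ} {f : V → ℝ} (h : PD n f) (hk : n ≤ k) : PD k f := by
  induction hk with
  | refl => exact h
  | step _ h1 => exact h1.succ

theorem PD.smul {n : ℕ} {f : V → ℝ} (c : ℝ) (h : PD n f) : PD n (fun x => c * f x) := by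
  induction h with
  | const n d => exact PD.const _ _
  | add _ _ h1 h2 => exact (h1.add h2).congr (fun x => by ring)
  | mulX i _ h1 => exact (h1.mulX i).congr (fun x => by ring)

theorem PD.sub {n : ℕ} {f g : V → ℝ} (hf : PD n f) (hg : PD n g) : PD n (fun x => f x - g x) :=
  (hf.add (hg.smul (-1))).congr (fun x => by ring)

theorem PD.mul {a b : ℕ} {f g : V → ℝ} (hf : PD a f) (hg : PD b g) :
    PD (a + b) (fun x => f x * g x) := by
  induction hf with
  | const n c => exact (hg.smul c).mono (by omega)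
  | add _ _ h1 h2 => exact (h1.add h2).congr (fun x => by ring)
  | @mulX n f i _ h1 =>
    have : n + 1 + b = n + b + 1 := by ring
    rw [this]
    exact (h1.mulX i).congr (fun x => by ring)

theorem PD.coord (i : Fin 3) : PD 1 (fun x : V => x i) :=
  ((PD.const 0 1).mulX i).congr (fun x => by ring)

theorem PD.pow {a : ℕ} {f : V → ℝ} (hf : PD a f) (k : ℕ) : PD (k * a) (fun x => f x ^ k) := by
  induction k with
  | zero => exact (PD.const _ 1).congr (fun x => by simp)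
  | succ k ih =>
    have : (k + 1) * a = k * a + a := by ring
    rw [this]
    exact (ih.mul hf).congr (fun x => by ring)

theorem PD.sum {ι : Type*} {n : ℕ} (s : Finset ι) (f : ι → V → ℝ) (h : ∀ i ∈ s, PD n (f i)) :
    PD n (fun x => ∑ i ∈ s, f i x) := by
  classical
  induction s using Finset.induction_on with
  | empty => exact (PD.const n 0).congr (fun x => by simp)
  | insert a s ha ih =>
    exact ((h a (by simp)).add (ih (fun i hi => h i (by simp [hi])))).congr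
      (fun x => by rw [Finset.sum_insert ha])

theorem PD.contDiff {n : ℕ} {f : V → ℝ} (h : PD n f) : ContDiff ℝ 1 f := by
  induction h with
  | const n c => exact contDiff_const
  | add _ _ h1 h2 => exact h1.add h2
  | mulX i _ h1 => exact (contDiff_apply ℝ ℝ i).mul h1

theorem PD.continuous {n : ℕ} {f : V → ℝ} (h : PD n f) : Continuous f := h.contDiff.continuous

theorem PD.diff {n : ℕ} {f : V → ℝ} (h : PD n f) (x : V) : HasFDerivAt f (fderiv ℝ f x) x :=
  ((h.contDiff.differentiable (by simp)) x).hasFDerivAt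

/-- partial derivative -/
noncomputable def pd (i : Fin 3) (f : V → ℝ) (x : V) : ℝ := fderiv ℝ f x (Pi.single i 1)

theorem PD.pd {n : ℕ} {f : V → ℝ} (h : PD n f) (i : Fin 3) : PD n (pd i f) := by
  induction h with
  | const n c => exact (PD.const n 0).congr (fun x => by simp [H62.pd])
  | @add n f g hf hg h1 h2 =>
    refine (h1.add h2).congr (fun x => ?_)
    have := ((hf.diff x).add (hg.diff x)).fderiv
    simp only [H62.pd]
    have e : (fun x => f x + g x) = f + g := rfl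
    rw [e, this]; rfl
  | @mulX n f j hf h1 =>
    refine ((h1.mulX j).add (hf.smul ((Pi.single i 1 : V) j)).succ).congr (fun x => ?_)
    have := ((hasFDerivAt_apply (𝕜 := ℝ) j x).mul (hf.diff x)).fderiv
    simp only [H62.pd]
    have e : (fun x : V => x j * f x) = (fun x : V => x j) * f := rfl
    rw [e, this]
    simp [mul_comm]

theorem fderiv_eq (f : V → ℝ) (x ξ : V) :
    fderiv ℝ f x ξ = ξ 0 * pd 0 f x + ξ 1 * pd 1 f x + ξ 2 * pd 2 f x := by
  have : ξ = ξ 0 • (Pi.single 0 1 : V) + ξ 1 • (Pi.single 1 1 : V) + ξ 2 • (Pi.single 2 1 : V) := by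
    ext k; fin_cases k <;> simp
  conv_lhs => rw [this]
  simp [pd]

theorem PD.curve {n : ℕ} {f : V → ℝ} (h : PD n f) {ψ : ℝ → V} {ξ : V} {t : ℝ}
    (hψ : HasDerivAt ψ ξ t) : HasDerivAt (fun s => f (ψ s))
      (ξ 0 * H62.pd 0 f (ψ t) + ξ 1 * H62.pd 1 f (ψ t) + ξ 2 * H62.pd 2 f (ψ t)) t := by
  rw [← fderiv_eq]
  exact (h.diff (ψ t)).comp_hasDerivAt t hψ

theorem PD.line {n : ℕ} {f : V → ℝ} (h : PD n f) (a b : V) :
    ∃ R : Polynomial ℝ, R.natDegree ≤ n ∧ ∀ t : ℝ, R.eval t = f (a + t • b) := by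
  induction h with
  | const n c => exact ⟨Polynomial.C c, by simp, by simp⟩
  | add _ _ h1 h2 =>
    obtain ⟨R, hR, eR⟩ := h1
    obtain ⟨T, hT, eT⟩ := h2
    exact ⟨R + T, (Polynomial.natDegree_add_le _ _).trans (max_le hR hT), fun t => by
      simp [eR, eT]⟩
  | @mulX n f i _ h1 =>
    obtain ⟨R, hR, eR⟩ := h1
    refine ⟨(Polynomial.C (b i) * Polynomial.X + Polynomial.C (a i)) * R, ?_, fun t => ?_⟩
    · refine Polynomial.natDegree_mul_le.trans ?_
      have : (Polynomial.C (b i) * Polynomial.X + Polynomial.C (a i)).natDegree ≤ 1 :=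
        Polynomial.natDegree_linear_le
      omega
    · simp only [Polynomial.eval_mul, Polynomial.eval_add, Polynomial.eval_C, Polynomial.eval_X, eR, Pi.add_apply, Pi.smul_apply, smul_eq_mul, mul_eq_mul_right_iff]; left; ring

theorem PD.roots {n : ℕ} {f : V → ℝ} (h : PD n f) (a b : V) (t0 : ℝ) (h0 : f (a + t0 • b) ≠ 0) :
    ∃ T : Finset ℝ, T.card ≤ n ∧ ∀ t, f (a + t • b) = 0 → t ∈ T := by
  classical
  obtain ⟨R, hR, eR⟩ := h.line a b
  have hne : R ≠ 0 := by
    rintro rfl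
    apply h0; rw [← eR]; simp
  refine ⟨R.roots.toFinset, ((Multiset.toFinset_card_le _).trans (Polynomial.card_roots' R)).trans hR,
    fun t ht => ?_⟩
  simp [hne, eR, ht]

/-- monomials -/
def mon {n : ℕ} (a : Fin 3 → Fin n) (x : V) : ℝ := ∏ i, x i ^ (a i : ℕ)

theorem PD.mon {n : ℕ} (a : Fin 3 → Fin (n + 1)) : PD (3 * n) (mon a) := by
  have h : ∀ i, PD n (fun x : V => x i ^ (a i : ℕ)) := fun i =>
    ((PD.coord i).pow (a i)).mono (by have := (a i).2; omega)
  have : 3 * n = n + n + n := by ring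
  rw [this]
  exact (((h 0).mul (h 1)).mul (h 2)).congr (fun x => by simp [H62.mon, Fin.prod_univ_three])

theorem mon_indep {n : ℕ} (c : (Fin 3 → Fin n) → ℝ) (y0 : V)
    (h : ∀ᶠ y in 𝓝 y0, ∑ a, c a * mon a y = 0) : c = 0 := by
  classical
  obtain ⟨δ, hδ, hb⟩ := Metric.eventually_nhds_iff.1 h
  let ex : (Fin 3 → Fin n) → (Fin 3 →₀ ℕ) := fun a => Finsupp.equivFunOnFinite.symm (fun i => (a i : ℕ))
  have hex : Function.Injective ex := by
    intro a b hab
    have := Finsupp.equivFunOnFinite.symm.injective hab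
    funext i
    exact Fin.ext (congrFun this i)
  let P : MvPolynomial (Fin 3) ℝ := ∑ a, MvPolynomial.monomial (ex a) (c a)
  have hP : P = 0 := by
    apply MvPolynomial.funext_set (fun i => Ioo (y0 i - δ) (y0 i + δ))
      (fun i => Ioo_infinite (by linarith))
    intro x hx
    have : dist x y0 < δ := by
      rw [dist_pi_lt_iff hδ]
      intro i
      have := hx i (mem_univ i)
      rw [Real.dist_eq, abs_lt]
      constructor <;> linarith [this.1, this.2]
    have := hb this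
    simp only [P, map_sum, MvPolynomial.eval_monomial, map_zero]
    rw [← this]
    refine Finset.sum_congr rfl (fun a _ => ?_)
    rw [Finsupp.prod_fintype _ _ (by simp)]
    simp [ex, mon]
  funext a
  have := congrArg (MvPolynomial.coeff (ex a)) hP
  simp only [P, MvPolynomial.coeff_sum, MvPolynomial.coeff_monomial, hex.eq_iff] at this
  simpa only [Pi.zero_apply, Finset.sum_ite_eq', Finset.mem_univ, ↓ reduceIte, MvPolynomial.coeff_zero] using this

theorem PD.mem_span {n : ℕ} {f : V → ℝ} (h : PD n f) :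
    f ∈ Submodule.span ℝ (range (fun a : Fin 3 → Fin (n + 1) => H62.mon a)) := by
  induction h with
  | const n c =>
    have : (fun _ : V => c) = c • H62.mon (fun _ => (0 : Fin (n + 1))) := by
      funext x; simp [H62.mon]
    rw [this]
    exact Submodule.smul_mem _ _ (Submodule.subset_span ⟨_, rfl⟩)
  | add _ _ h1 h2 => exact Submodule.add_mem _ h1 h2
  | @mulX n f i h0 h1 =>
    clear h0
    induction h1 using Submodule.span_induction with
    | mem g hg =>
      obtain ⟨a, rfl⟩ := hg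
      refine Submodule.subset_span ⟨fun j => if j = i then (a j).succ else (a j).castSucc, ?_⟩
      funext x
      fin_cases i <;> simp only [H62.mon, Fin.zero_eta, Fin.isValue, Fin.prod_univ_three, ↓ reduceIte, Fin.val_succ, one_ne_zero, Fin.val_castSucc, Fin.reduceEq, Fin.mk_one, zero_ne_one, Fin.reduceFinMk] <;> ring
    | zero =>
      have : (fun x : V => x i * (0 : V → ℝ) x) = 0 := by funext x; simp
      rw [this]; exact Submodule.zero_mem _
    | add g k _ _ h1 h2 =>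
      have : (fun x : V => x i * (g + k) x) = (fun x : V => x i * g x) + fun x : V => x i * k x := by
        funext x; simp; ring
      rw [this]; exact Submodule.add_mem _ h1 h2
    | smul c g _ h1 =>
      have : (fun x : V => x i * (c • g) x) = c • (fun x : V => x i * g x) := by
        funext x; simp; ring
      rw [this]; exact Submodule.smul_mem _ _ h1

theorem exists_rel {ι : Type*} [Fintype ι] {n : ℕ} (f : ι → V → ℝ) (h : ∀ i, PD n (f i))
    (hc : (n + 1) ^ 3 < Fintype.card ι) : ∃ c : ι → ℝ, c ≠ 0 ∧ ∀ x, ∑ i, c i * f i x = 0 := by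
  classical
  set M := Submodule.span ℝ (range (fun a : Fin 3 → Fin (n + 1) => H62.mon a))
  have hfin : Module.finrank ℝ M ≤ (n + 1) ^ 3 := by
    have := finrank_range_le_card (R := ℝ) (fun a : Fin 3 → Fin (n + 1) => H62.mon a)
    simpa only [ge_iff_le, Set.finrank, Fintype.card_pi, Fintype.card_fin, Finset.prod_const, Finset.card_univ] using this
  have : Module.Finite ℝ M := Module.Finite.span_of_finite ℝ (finite_range _)
  have hn : ¬ LinearIndependent ℝ (fun i => (⟨f i, (h i).mem_span⟩ : M)) := fun hl => by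
    have := hl.fintype_card_le_finrank
    omega
  obtain ⟨c, hc0, i, hi⟩ := Fintype.not_linearIndependent_iff.1 hn
  refine ⟨c, fun e => hi (by simp [e]), fun x => ?_⟩
  have := congrFun (congrArg Subtype.val hc0) x
  simpa only [SetLike.mk_smul_mk, AddSubmonoidClass.coe_finsetSum, Finset.sum_apply, Pi.smul_apply, smul_eq_mul, ZeroMemClass.coe_zero, Pi.zero_apply] using this

/-- local charts from the inverse function theorem -/
theorem chart (F : V → V) (z : V) (hF : ContDiff ℝ 1 F)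
    (hinj : ∀ ξ, fderiv ℝ F z ξ = 0 → ξ = 0) :
    ∃ (e : OpenPartialHomeomorph V V) (L : V →L[ℝ] V), (e : V → V) = F ∧ z ∈ e.source ∧
      HasFDerivAt e.symm L (F z) ∧ ∀ η, fderiv ℝ F z (L η) = η := by
  have hi : Function.Injective (fderiv ℝ F z).toLinearMap := by
    rw [injective_iff_map_eq_zero]; exact hinj
  let E : V ≃L[ℝ] V := (LinearEquiv.ofInjectiveEndo _ hi).toContinuousLinearEquiv
  have hE : (E : V →L[ℝ] V) = fderiv ℝ F z := by ext ξ i; rfl
  have hs : HasStrictFDerivAt F (E : V →L[ℝ] V) z := by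
    rw [hE]; exact hF.contDiffAt.hasStrictFDerivAt (by simp)
  refine ⟨hs.toOpenPartialHomeomorph F, E.symm, rfl, hs.mem_toOpenPartialHomeomorph_source,
    hs.to_localInverse.hasFDerivAt, fun η => ?_⟩
  rw [← hE]; simp

theorem fderiv_pi3 (f : Fin 3 → V → ℝ) {n : ℕ} (hf : ∀ r, PD n (f r)) (z ξ : V) (r : Fin 3) :
    fderiv ℝ (fun x r => f r x) z ξ r = fderiv ℝ (f r) z ξ := by
  have : HasFDerivAt (fun x r => f r x) (ContinuousLinearMap.pi (fun r => fderiv ℝ (f r) z)) z :=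
    hasFDerivAt_pi.2 (fun r => (hf r).diff z)
  rw [this.fderiv]; rfl

theorem exists_sep (Z : Finset V) : ∃ c : ℝ, Set.InjOn (fun x : V => x 0 + c * x 1 + c ^ 2 * x 2) Z := by
  classical
  have hfin : ∀ x y : V, x ≠ y → {c : ℝ | x 0 + c * x 1 + c ^ 2 * x 2 = y 0 + c * y 1 + c ^ 2 * y 2}.Finite := by
    intro x y hxy
    let R : Polynomial ℝ := Polynomial.C (x 2 - y 2) * Polynomial.X ^ 2 +
      Polynomial.C (x 1 - y 1) * Polynomial.X + Polynomial.C (x 0 - y 0)
    have hR : R ≠ 0 := by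
      intro h0
      apply hxy
      have h2 := congrArg (fun P => Polynomial.eval (-1) P) h0
      have h1 := congrArg (fun P => Polynomial.eval 1 P) h0
      have h00 := congrArg (fun P => Polynomial.eval 0 P) h0
      simp only [R, Fin.isValue, map_sub, Polynomial.eval_add, Polynomial.eval_mul, Polynomial.eval_sub, Polynomial.eval_C, Polynomial.eval_pow, Polynomial.eval_X, even_two, Even.neg_pow, one_pow, mul_one, mul_neg, neg_sub, Polynomial.eval_zero, ne_eq, OfNat.ofNat_ne_zero, not_false_eq_true, zero_pow, mul_zero, add_zero, zero_add] at h2 h1 h00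
      funext k; fin_cases k <;> simp <;> linarith
    refine (R.roots.toFinset.finite_toSet).subset (fun c hc => ?_)
    have hc' : x 0 + c * x 1 + c ^ 2 * x 2 = y 0 + c * y 1 + c ^ 2 * y 2 := hc
    simp only [Finset.mem_coe, Multiset.mem_toFinset, Polynomial.mem_roots hR,
      Polynomial.IsRoot.def]
    simp only [R, Fin.isValue, map_sub, Polynomial.eval_add, Polynomial.eval_mul, Polynomial.eval_sub, Polynomial.eval_C, Polynomial.eval_pow, Polynomial.eval_X]
    linarith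
  have : (⋃ x ∈ Z, ⋃ y ∈ Z, ⋃ (_ : x ≠ y),
      {c : ℝ | x 0 + c * x 1 + c ^ 2 * x 2 = y 0 + c * y 1 + c ^ 2 * y 2}).Finite :=
    Z.finite_toSet.biUnion (fun x _ => Z.finite_toSet.biUnion (fun y _ =>
      finite_iUnion (fun h => hfin x y h)))
  obtain ⟨c, hc⟩ := this.exists_notMem
  refine ⟨c, fun x hx y hy hxy => ?_⟩
  by_contra hne
  exact hc (by simp only [mem_iUnion]; exact ⟨x, hx, y, hy, hne, hxy⟩)

/-- Bezout-type bound -/
theorem bezout {d : ℕ} (hd : 1 ≤ d) (f : Fin 3 → V → ℝ) (hf : ∀ r, PD d (f r)) (Z : Finset V)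
    (hZ : ∀ z ∈ Z, ∀ r, f r z = 0)
    (hJ : ∀ z ∈ Z, ∀ ξ : V, (∀ r, fderiv ℝ (f r) z ξ = 0) → ξ = 0) : Z.card ≤ 64 * d ^ 3 := by
  classical
  obtain ⟨c, hc⟩ := exists_sep Z
  set u : V → ℝ := fun x => x 0 + c * x 1 + c ^ 2 * x 2 with hu
  have hup : PD 1 u := ((PD.coord 0).add ((PD.coord 1).smul c)).add ((PD.coord 2).smul (c ^ 2))
  set B := 64 * d ^ 3 with hB
  let F : V → V := fun x r => f r x
  have hF : ContDiff ℝ 1 F := contDiff_pi.2 (fun r => (hf r).contDiff)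
  have hPD : ∀ ab : (Fin 3 → Fin (B + 1)) × Fin (B + 1),
      PD (3 * (B * d) + B) (fun x => mon ab.1 (F x) * u x ^ (ab.2 : ℕ)) := by
    rintro ⟨a, b⟩
    have h1 : ∀ r, PD (B * d) (fun x => f r x ^ (a r : ℕ)) := fun r =>
      ((hf r).pow (a r)).mono (Nat.mul_le_mul_right _ (by have := (a r).2; omega))
    have h2 : PD B (fun x => u x ^ (b : ℕ)) := (hup.pow b).mono (by have := b.2; omega)
    have : 3 * (B * d) + B = B * d + B * d + B * d + B := by ring
    rw [this]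
    exact ((((h1 0).mul (h1 1)).mul (h1 2)).mul h2).congr
      (fun x => by simp [mon, Fin.prod_univ_three, F])
  obtain ⟨cf, hcf, hrel⟩ := exists_rel _ hPD (by
    simp only [Fintype.card_prod, Fintype.card_pi, Fintype.card_fin, Finset.prod_const,
      Finset.card_univ]
    have h1 : 3 * (B * d) + B + 1 ≤ (B + 1) * (4 * d) := by nlinarith only [hd]
    calc (3 * (B * d) + B + 1) ^ 3 ≤ ((B + 1) * (4 * d)) ^ 3 := Nat.pow_le_pow_left h1 3
      _ = (B + 1) ^ 3 * B := by rw [hB]; ring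
      _ < (B + 1) ^ 3 * (B + 1) := Nat.mul_lt_mul_of_pos_left (by omega) (by positivity))
  have hch : ∀ z ∈ Z, ∃ G : V → V, ContinuousAt G 0 ∧ G 0 = z ∧ ∀ᶠ y in 𝓝 (0 : V), F (G y) = y := by
    intro z hz
    have hz0 : F z = 0 := funext (fun r => hZ z hz r)
    obtain ⟨e, L, he, hs, hL, -⟩ := chart F z hF (fun ξ hξ => hJ z hz ξ (fun r => by
      rw [← fderiv_pi3 f hf z ξ r]; exact congrFun hξ r))
    rw [hz0] at hL
    refine ⟨e.symm, hL.continuousAt, ?_, ?_⟩
    · rw [← hz0, ← he]; exact e.left_inv hs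
    · have := e.eventually_right_inverse' hs
      rw [he, hz0] at this
      exact this
  choose! G hGc hG0 hGr using hch
  have hev1 : ∀ᶠ y in 𝓝 (0 : V), ∀ z ∈ Z, F (G z y) = y :=
    (Z.finite_toSet.eventually_all).2 hGr
  have hev2 : ∀ᶠ y in 𝓝 (0 : V), ∀ z ∈ Z, ∀ w ∈ Z, z ≠ w → u (G z y) ≠ u (G w y) := by
    refine (Z.finite_toSet.eventually_all).2 (fun z hz => (Z.finite_toSet.eventually_all).2
      (fun w hw => ?_))
    by_cases hzw : z = w
    · exact Eventually.of_forall (fun y h => absurd hzw h)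
    · have h1 : ContinuousAt (fun y => u (G z y)) 0 := hup.continuous.continuousAt.comp (hGc z hz)
      have h2 : ContinuousAt (fun y => u (G w y)) 0 := hup.continuous.continuousAt.comp (hGc w hw)
      have : u (G z 0) ≠ u (G w 0) := by
        rw [hG0 z hz, hG0 w hw]; exact fun h => hzw (hc hz hw h)
      exact ((h1.sub h2).eventually_ne (sub_ne_zero.2 this)).mono
        (fun y hy _ => sub_ne_zero.1 hy)
  obtain ⟨⟨a0, b0⟩, hab⟩ := Function.ne_iff.1 hcf
  have hfr : ¬ ∀ᶠ y in 𝓝 (0 : V), ∑ a, cf (a, b0) * mon a y = 0 := fun h => by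
    have := mon_indep (fun a => cf (a, b0)) 0 h
    exact hab (congrFun this a0)
  obtain ⟨y, hy0, hy1, hy2⟩ := ((not_eventually.1 hfr).and_eventually (hev1.and hev2)).exists
  let R : Polynomial ℝ := ∑ b : Fin (B + 1), Polynomial.monomial (b : ℕ) (∑ a, cf (a, b) * mon a y)
  have hR : R ≠ 0 := by
    intro h0
    have := congrArg (fun P => Polynomial.coeff P (b0 : ℕ)) h0
    simp only [R, Polynomial.finsetSum_coeff, Polynomial.coeff_monomial, Fin.val_inj] at this
    apply hy0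
    simpa only [Finset.sum_ite_eq', Finset.mem_univ, ↓ reduceIte, Polynomial.coeff_zero] using this
  have hdeg : R.natDegree ≤ B := Polynomial.natDegree_sum_le_of_forall_le _ _ (fun b _ =>
    (Polynomial.natDegree_monomial_le _).trans (by have := b.2; omega))
  calc Z.card ≤ R.roots.toFinset.card := by
        refine Finset.card_le_card_of_injOn (fun z => u (G z y)) (fun z hz => ?_)
          (fun z hz w hw h => by by_contra hne; exact hy2 z hz w hw hne h)
        have := hrel (G z y)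
        rw [Fintype.sum_prod_type_right, hy1 z hz] at this
        simp only [Finset.mem_coe, Multiset.mem_toFinset, Polynomial.mem_roots hR,
          Polynomial.IsRoot.def, R, Polynomial.eval_finsetSum, Polynomial.eval_monomial]
        rw [← this]
        refine Finset.sum_congr rfl (fun b _ => ?_)
        rw [Finset.sum_mul]
        exact Finset.sum_congr rfl (fun a _ => by ring)
    _ ≤ B := ((Multiset.toFinset_card_le _).trans (Polynomial.card_roots' R)).trans hdeg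

end Pool.Agent.MP_800a79_co.H62

end

-- part MP_800a79_co.H62.Part
section

/-! Polynomial ham sandwich theorem and the Guth–Katz partition. -/

set_option autoImplicit false

namespace Pool.Agent.MP_800a79_co.H62

open Filter Topology Set

open Classical in
theorem ham {α ι : Type*} [Fintype α] [Fintype ι] {N : ℕ} (hN : Fintype.card ι ≤ N)
    (A : ι → Finset α) (v : α → EuclideanSpace ℝ (Fin (N + 1))) :
    ∃ c : EuclideanSpace ℝ (Fin (N + 1)), ‖c‖ = 1 ∧ ∀ j,
      2 * ((A j).filter (fun a => 0 < inner ℝ c (v a))).card ≤ (A j).card ∧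
      2 * ((A j).filter (fun a => inner ℝ c (v a) < 0)).card ≤ (A j).card := by
  by_contra hcon
  push Not at hcon
  let H : ℝ → EuclideanSpace ℝ (Fin (N + 1)) → ι → Prop := fun η c j =>
    (A j).card < 2 * ((A j).filter (fun a => η < inner ℝ c (v a))).card
  have hmono : ∀ η η' c c' j, H η c j → (∀ a, η < inner ℝ c (v a) → η' < inner ℝ c' (v a)) →
      H η' c' j := by
    intro η η' c c' j h1 h2
    refine lt_of_lt_of_le h1 (Nat.mul_le_mul_left _ (Finset.card_le_card (fun a ha => ?_)))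
    simp only [Finset.mem_filter] at ha ⊢
    exact ⟨ha.1, h2 a ha.2⟩
  have hloc : ∀ c j, H 0 c j → ∀ᶠ z in 𝓝 ((0 : ℝ), c), H z.1 z.2 j := by
    intro c j h
    have : ∀ᶠ z in 𝓝 ((0 : ℝ), c), ∀ a, 0 < inner ℝ c (v a) → z.1 < inner ℝ z.2 (v a) := by
      refine eventually_all.2 (fun a => ?_)
      by_cases ha : 0 < inner ℝ c (v a)
      · have := (continuous_fst.continuousAt (x := ((0 : ℝ), c))).eventually_lt
          (g := fun z : ℝ × EuclideanSpace ℝ (Fin (N + 1)) => inner ℝ z.2 (v a))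
          (by fun_prop) ha
        exact this.mono (fun z hz _ => hz)
      · exact Eventually.of_forall (fun z h => absurd h ha)
    exact this.mono (fun z hz => hmono _ _ _ _ _ h hz)
  have hunif : ∀ᶠ η in 𝓝 (0 : ℝ), ∀ c ∈ Metric.sphere (0 : EuclideanSpace ℝ (Fin (N + 1))) 1,
      ∃ j, H η c j ∨ H η (-c) j := by
    apply (isCompact_sphere _ _).eventually_forall_of_forall_eventually
    intro c hc
    obtain ⟨j, hj⟩ := hcon c (by simpa using hc)
    by_cases h1 : H 0 c j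
    · exact (hloc c j h1).mono (fun z hz => ⟨j, Or.inl hz⟩)
    · have h2 : H 0 (-c) j := by
        have := hj (not_lt.1 h1)
        simpa only [H, gt_iff_lt, inner_neg_left, Left.neg_pos_iff] using this
      have h3 := hloc (-c) j h2
      have hc : ContinuousAt (fun z : ℝ × EuclideanSpace ℝ (Fin (N + 1)) => (z.1, -z.2)) (0, c) := by
        fun_prop
      exact (hc.eventually h3).mono (fun z hz => ⟨j, Or.inr hz⟩)
  obtain ⟨η2, hη2, hη0⟩ := (hunif.filter_mono (nhdsWithin_le_nhds (s := Ioi 0))).and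
    self_mem_nhdsWithin |>.exists
  have hη0' : (0 : ℝ) < η2 := hη0
  set η := η2 / 2 with hη
  set M := ∑ a, ‖v a‖ + 1 with hM
  have hM0 : 0 < M := by positivity
  have hMa : ∀ a, ‖v a‖ ≤ M := fun a => by
    have := Finset.single_le_sum (f := fun a => ‖v a‖) (fun a _ => norm_nonneg _) (Finset.mem_univ a)
    linarith only [this]
  obtain ⟨emb⟩ : Nonempty (ι ↪ Fin N) := Function.Embedding.nonempty_of_card_le (by simpa only [Fintype.card_fin] using hN)
  obtain ⟨x, y, hx, hy, hxy, hg⟩ := Pool.Agent.Lib.BorsukUlam.exists_antipodal N (η / M)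
    (div_pos (by linarith only [hη0, hη]) hM0) (fun c => if h : ∃ j, H η c j then (emb h.choose).succ else 0)
  have hin : ∀ a, |inner ℝ x (v a) + inner ℝ y (v a)| ≤ η := fun a => by
    rw [← inner_add_left]
    refine (abs_real_inner_le_norm _ _).trans ?_
    calc ‖x + y‖ * ‖v a‖ ≤ η / M * M :=
          mul_le_mul hxy.le (hMa a) (norm_nonneg _) (div_nonneg (by linarith only [hη0, hη]) hM0.le)
      _ = η := div_mul_cancel₀ _ hM0.ne'
  have key : ∀ x y : EuclideanSpace ℝ (Fin (N + 1)), ‖x‖ = 1 →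
      (∀ a, |inner ℝ x (v a) + inner ℝ y (v a)| ≤ η) → (∃ j, H η x j) ∨ ∃ j, H η y j := by
    intro x y hx hin
    obtain ⟨j, hj | hj⟩ := hη2 x (by simpa using hx)
    · exact Or.inl ⟨j, hmono _ _ _ _ _ hj (fun a ha => by linarith only [hη0, hη, ha])⟩
    · refine Or.inr ⟨j, hmono _ _ _ _ _ hj (fun a ha => ?_)⟩
      rw [inner_neg_left] at ha
      have := abs_le.1 (hin a)
      linarith only [hη, ha, this]
  by_cases h1 : ∃ j, H η x j <;> by_cases h2 : ∃ j, H η y j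
  · simp only [dif_pos h1, dif_pos h2, Fin.succ_inj, EmbeddingLike.apply_eq_iff_eq] at hg
    have e1 := h1.choose_spec
    have e2 := h2.choose_spec
    rw [← hg] at e2
    set j := h1.choose
    have hd : Disjoint ((A j).filter (fun a => η < inner ℝ x (v a)))
        ((A j).filter (fun a => η < inner ℝ y (v a))) := by
      rw [Finset.disjoint_filter]
      intro a _ ha hb
      have := abs_le.1 (hin a)
      linarith only [hη0, hη, ha, hb, this]
    have := Finset.card_le_card (Finset.union_subset (Finset.filter_subset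
      (fun a => η < inner ℝ x (v a)) (A j)) (Finset.filter_subset (fun a => η < inner ℝ y (v a)) (A j)))
    rw [Finset.card_union_of_disjoint hd] at this
    simp only [H] at e1 e2
    omega
  · simp only [dif_pos h1, dif_neg h2] at hg
    exact Fin.succ_ne_zero _ hg
  · simp only [dif_neg h1, dif_pos h2] at hg
    exact Fin.succ_ne_zero _ hg.symm
  · rcases key x y hx hin with h | h
    exacts [h1 h, h2 h]

open Classical in
theorem hamPoly {α ι : Type*} [Fintype α] [Fintype ι] {d : ℕ}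
    (hN : Fintype.card ι + 1 ≤ (d + 1) ^ 3) (A : ι → Finset α) (x : α → V) :
    ∃ P : V → ℝ, PD (3 * d) P ∧ (∀ y0, ∃ᶠ y in 𝓝 y0, P y ≠ 0) ∧ ∀ j,
      2 * ((A j).filter (fun a => 0 < P (x a))).card ≤ (A j).card ∧
      2 * ((A j).filter (fun a => P (x a) < 0)).card ≤ (A j).card := by
  obtain ⟨N, hNe⟩ : ∃ N, (d + 1) ^ 3 = N + 1 := ⟨(d + 1) ^ 3 - 1, by omega⟩
  let e : Fin (N + 1) ≃ (Fin 3 → Fin (d + 1)) := Fintype.equivOfCardEq (by simp [hNe])
  obtain ⟨c, hc, h⟩ := ham (N := N) (by omega) A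
    (fun a => WithLp.toLp 2 (fun r => mon (e r) (x a)))
  have hP : ∀ y, ∑ b, c (e.symm b) * mon b y = inner ℝ c (WithLp.toLp 2 (fun r => mon (e r) y)) := by
    intro y
    rw [← e.sum_comp]
    simp [PiLp.inner_apply, mul_comm]
  refine ⟨fun y => ∑ b, c (e.symm b) * mon b y, PD.sum _ _ (fun b _ => (PD.mon b).smul _),
    fun y0 => ?_, fun j => ?_⟩
  · rw [← not_eventually]
    intro h0
    have := mon_indep (fun b => c (e.symm b)) y0 h0
    have : c = 0 := by
      ext r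
      simpa using congrFun this (e r)
    simp [this] at hc
  · simp only [hP]
    exact h j

open Classical in
/-- `i` bisection steps with total degree `D` -/
def Stage {α : Type*} [Fintype α] (x : α → V) (i D : ℕ) : Prop :=
  ∃ (Q : V → ℝ) (lab : V → (Fin i → Bool)), PD D Q ∧ (∃ y, Q y ≠ 0) ∧
    (∀ A : Set V, IsPreconnected A → (∀ y ∈ A, Q y ≠ 0) → ∀ y ∈ A, ∀ y' ∈ A, lab y = lab y') ∧
    ∀ σ, 2 ^ i * (Finset.univ.filter (fun a => Q (x a) ≠ 0 ∧ lab (x a) = σ)).card ≤ Fintype.card α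

theorem sign_const {n : ℕ} {P : V → ℝ} (hP : PD n P) {A : Set V} (hA : IsPreconnected A)
    (h : ∀ y ∈ A, P y ≠ 0) {y y' : V} (hy : y ∈ A) (hy' : y' ∈ A) (h0 : 0 < P y) : 0 < P y' := by
  by_contra hn
  obtain ⟨w, hw, hw0⟩ := hA.intermediate_value hy' hy hP.continuous.continuousOn
    (show (0 : ℝ) ∈ Icc (P y') (P y) from ⟨not_lt.1 hn, h0.le⟩)
  exact h w hw hw0

open Classical in
theorem Stage.step {α : Type*} [Fintype α] {x : α → V} {i D d : ℕ} (h : Stage x i D)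
    (hd : 2 ^ i + 1 ≤ (d + 1) ^ 3) : Stage x (i + 1) (D + 3 * d) := by
  obtain ⟨Q, lab, hQ, ⟨y0, hy0⟩, hl, hc⟩ := h
  obtain ⟨P, hP, hP0, hb⟩ := hamPoly (ι := Fin i → Bool) (d := d) (by simpa only [Fintype.card_pi, Fintype.card_bool, Finset.prod_const, Finset.card_univ, Fintype.card_fin, Order.add_one_le_iff] using hd)
    (fun σ => Finset.univ.filter (fun a => Q (x a) ≠ 0 ∧ lab (x a) = σ)) x
  refine ⟨fun y => Q y * P y, fun y => Fin.cons (decide (0 < P y)) (lab y), hQ.mul hP, ?_, ?_, ?_⟩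
  · obtain ⟨y, h1, h2⟩ := ((hP0 y0).and_eventually
      (hQ.continuous.continuousAt.eventually_ne hy0)).exists
    exact ⟨y, mul_ne_zero h2 h1⟩
  · intro A hA h0 y hy y' hy'
    have h1 : ∀ y ∈ A, Q y ≠ 0 := fun y hy => left_ne_zero_of_mul (h0 y hy)
    have h2 : ∀ y ∈ A, P y ≠ 0 := fun y hy => right_ne_zero_of_mul (h0 y hy)
    have : decide (0 < P y) = decide (0 < P y') := by
      simp only [decide_eq_decide]
      exact ⟨sign_const hP hA h2 hy hy', sign_const hP hA h2 hy' hy⟩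
    simp only [this, hl A hA h1 y hy y' hy']
  · intro σ
    have h1 := hc (Fin.tail σ)
    obtain ⟨h2, h3⟩ := hb (Fin.tail σ)
    have hs : ∀ a, (Fin.cons (decide (0 < P (x a))) (lab (x a)) : Fin (i + 1) → Bool) = σ →
        decide (0 < P (x a)) = σ 0 ∧ lab (x a) = Fin.tail σ := by
      rintro a rfl
      simp
    rw [pow_succ, mul_assoc]
    refine le_trans (Nat.mul_le_mul_left _ ?_) h1
    cases h0 : σ 0
    · refine le_trans (Nat.mul_le_mul_left _ (Finset.card_le_card (fun a ha => ?_))) h3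
      simp only [Finset.mem_filter, Finset.mem_univ, true_and] at ha ⊢
      obtain ⟨e1, e2⟩ := hs a ha.2
      rw [h0] at e1
      refine ⟨⟨left_ne_zero_of_mul ha.1, e2⟩, lt_of_le_of_ne ?_ (right_ne_zero_of_mul ha.1)⟩
      simpa using e1
    · refine le_trans (Nat.mul_le_mul_left _ (Finset.card_le_card (fun a ha => ?_))) h2
      simp only [Finset.mem_filter, Finset.mem_univ, true_and] at ha ⊢
      obtain ⟨e1, e2⟩ := hs a ha.2
      rw [h0] at e1
      exact ⟨⟨left_ne_zero_of_mul ha.1, e2⟩, by simpa using e1⟩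

theorem stage_all {α : Type*} [Fintype α] (x : α → V) (j : ℕ) : Stage x (3 * j) (18 * 2 ^ j) := by
  classical
  induction j with
  | zero =>
    refine ⟨fun _ => 1, fun _ => default, PD.const _ _, ⟨0, one_ne_zero⟩, fun _ _ _ _ _ _ _ => rfl,
      fun σ => ?_⟩
    simpa only [mul_zero, pow_zero, ne_eq, one_ne_zero, not_false_eq_true, Nat.mul_zero, Pi.default_def, Bool.default_bool, true_and, Finset.filter_const, one_mul] using Finset.card_le_univ _
  | succ j ih =>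
    have hb : ∀ r, r ≤ 2 → 2 ^ (3 * j + r) + 1 ≤ (2 ^ (j + 1) + 1) ^ 3 := by
      intro r hr
      have h1 : 2 ^ (3 * j + r) < 2 ^ (3 * j + 3) := Nat.pow_lt_pow_right (by norm_num) (by omega)
      have h2 : (2 ^ (j + 1)) ^ 3 = 2 ^ (3 * j + 3) := by rw [← pow_mul]; congr 1; ring
      have h3 : (2 ^ (j + 1)) ^ 3 ≤ (2 ^ (j + 1) + 1) ^ 3 := Nat.pow_le_pow_left (by omega) 3
      omega
    have := ((ih.step (hb 0 (by omega))).step (hb 1 (by omega))).step (hb 2 (by omega))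
    have e : 18 * 2 ^ j + 3 * 2 ^ (j + 1) + 3 * 2 ^ (j + 1) + 3 * 2 ^ (j + 1) = 18 * 2 ^ (j + 1) := by
      ring
    rw [e] at this
    exact this

open Classical in
/-- Guth–Katz partition -/
theorem gk {α : Type*} [Fintype α] (x : α → V) (j : ℕ) :
    ∃ Q : V → ℝ, PD (18 * 2 ^ j) Q ∧ (∃ y, Q y ≠ 0) ∧
      ∀ A : Set V, IsPreconnected A → (∀ y ∈ A, Q y ≠ 0) →
        8 ^ j * (Finset.univ.filter (fun a => x a ∈ A)).card ≤ Fintype.card α := by
  obtain ⟨Q, lab, hQ, h0, hl, hc⟩ := stage_all x j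
  refine ⟨Q, hQ, h0, fun A hA hA0 => ?_⟩
  rcases A.eq_empty_or_nonempty with rfl | ⟨y, hy⟩
  · simp only [mem_empty_iff_false, Finset.filter_false, Finset.card_empty, mul_zero, zero_le]
  · have e : (8 : ℕ) ^ j = 2 ^ (3 * j) := by rw [pow_mul]; norm_num
    rw [e]
    refine le_trans (Nat.mul_le_mul_left _ (Finset.card_le_card (fun a ha => ?_))) (hc (lab y))
    simp only [Finset.mem_filter, Finset.mem_univ, true_and] at ha ⊢
    exact ⟨hA0 _ ha, hl A hA hA0 _ ha _ hy⟩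

/-- the cell of a point -/
def cell (Q : V → ℝ) (y : V) : Set V := connectedComponentIn {w | Q w ≠ 0} y

theorem cell_eq {Q : V → ℝ} {A : Set V} (hA : IsPreconnected A) (h : ∀ y ∈ A, Q y ≠ 0) {y y' : V}
    (hy : y ∈ A) (hy' : y' ∈ A) : cell Q y = cell Q y' :=
  connectedComponentIn_eq (hA.subset_connectedComponentIn hy h hy')

open Classical in
/-- a line meets at most `n + 1` cells -/
theorem line_cells {n : ℕ} {Q : V → ℝ} (hQ : PD n Q) (a b : V) :
    ∃ K : Finset (Set V), K.card ≤ n + 1 ∧ ∀ t : ℝ, Q (a + t • b) ≠ 0 → cell Q (a + t • b) ∈ K := by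
  by_cases h0 : ∃ t0 : ℝ, Q (a + t0 • b) ≠ 0
  swap
  · exact ⟨∅, by simp, fun t ht => absurd ⟨t, ht⟩ h0⟩
  obtain ⟨t0, ht0⟩ := h0
  obtain ⟨T, hT, hr⟩ := hQ.roots a b t0 ht0
  let N : ℝ → ℕ := fun t => (T.filter (fun s => s < t ∧ Q (a + s • b) = 0)).card
  have hN : ∀ t t', t ≤ t' → Q (a + t • b) ≠ 0 → Q (a + t' • b) ≠ 0 → N t = N t' →
      cell Q (a + t • b) = cell Q (a + t' • b) := by
    intro t t' htt h1 h2 he
    have hsub : T.filter (fun s => s < t ∧ Q (a + s • b) = 0) ⊆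
        T.filter (fun s => s < t' ∧ Q (a + s • b) = 0) := fun s hs => by
      simp only [Finset.mem_filter] at hs ⊢
      exact ⟨hs.1, hs.2.1.trans_le htt, hs.2.2⟩
    have heq := Finset.eq_of_subset_of_card_le hsub he.ge
    refine cell_eq (A := (fun s : ℝ => a + s • b) '' Icc t t')
      (isPreconnected_Icc.image _ (by fun_prop)) ?_ ⟨t, ⟨le_rfl, htt⟩, rfl⟩ ⟨t', ⟨htt, le_rfl⟩, rfl⟩
    rintro _ ⟨s, hs, rfl⟩ hs0
    have hst : s ≠ t' := by rintro rfl; exact h2 hs0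
    have : s ∈ T.filter (fun s => s < t' ∧ Q (a + s • b) = 0) :=
      Finset.mem_filter.2 ⟨hr s hs0, lt_of_le_of_ne hs.2 hst, hs0⟩
    rw [← heq] at this
    exact absurd (Finset.mem_filter.1 this).2.1 (not_lt.2 hs.1)
  let g : ℕ → Set V := fun k =>
    if h : ∃ t, Q (a + t • b) ≠ 0 ∧ N t = k then cell Q (a + h.choose • b) else ∅
  refine ⟨(Finset.range (n + 1)).image g, Finset.card_image_le.trans (by simp), fun t ht => ?_⟩
  refine Finset.mem_image.2 ⟨N t, Finset.mem_range.2 (Nat.lt_succ_of_le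
    ((Finset.card_filter_le _ _).trans hT)), ?_⟩
  have h : ∃ s, Q (a + s • b) ≠ 0 ∧ N s = N t := ⟨t, ht, rfl⟩
  simp only [g, dif_pos h]
  rcases le_total h.choose t with h1 | h1
  · exact hN _ _ h1 h.choose_spec.1 ht h.choose_spec.2
  · exact (hN _ _ h1 ht h.choose_spec.1 h.choose_spec.2.symm).symm

end Pool.Agent.MP_800a79_co.H62

end

-- part MP_800a79_co.H62.Branch
section

/-! Branches of a space curve over a sweep coordinate. -/

set_option autoImplicit false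

namespace Pool.Agent.MP_800a79_co.H62

open Filter Topology Set MeasureTheory

/-- the axis -/
def ax (t : ℝ) : V := Pi.single 0 t

theorem ax_deriv (t : ℝ) : HasDerivAt ax (ax 1) t := by
  refine hasDerivAt_pi.2 (fun i => ?_)
  fin_cases i
  · simpa [ax] using hasDerivAt_id' t
  · simpa [ax] using hasDerivAt_const t (0 : ℝ)
  · simpa [ax] using hasDerivAt_const t (0 : ℝ)

theorem ax_cont : Continuous ax := continuous_iff_continuousAt.2 (fun t => (ax_deriv t).continuousAt)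

theorem br_deriv {F : V → V} (hF : ContDiff ℝ 1 F) {ψ : ℝ → V} {t : ℝ} (hψ : ContinuousAt ψ t)
    (he : ∀ᶠ s in 𝓝 t, F (ψ s) = ax s) (hi : ∀ ξ, fderiv ℝ F (ψ t) ξ = 0 → ξ = 0) :
    ∃ ξ, HasDerivAt ψ ξ t ∧ fderiv ℝ F (ψ t) ξ = ax 1 := by
  obtain ⟨e, L, heF, hs, hL, hR⟩ := chart F (ψ t) hF hi
  refine ⟨L (ax 1), ?_, hR _⟩
  rw [he.self_of_nhds] at hL
  refine (hL.comp_hasDerivAt t (ax_deriv t)).congr_of_eventuallyEq ?_
  filter_upwards [he, hψ.eventually (e.open_source.mem_nhds hs)] with s h1 h2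
  simp only [Function.comp]
  rw [← h1, ← heF, e.left_inv h2]

theorem br_uniq {F : V → V} (hF : ContDiff ℝ 1 F) {ψ χ : ℝ → V} {a b : ℝ} (hab : a ≤ b)
    (hψ : ContinuousOn ψ (Icc a b)) (hχ : ContinuousOn χ (Icc a b))
    (he : ∀ t ∈ Icc a b, F (ψ t) = F (χ t))
    (hi : ∀ t ∈ Icc a b, ∀ ξ, fderiv ℝ F (ψ t) ξ = 0 → ξ = 0) (hb : ψ b = χ b) : ψ a = χ a := by
  have : PreconnectedSpace (Icc a b) := Subtype.preconnectedSpace isPreconnected_Icc
  have h1 : Continuous (fun t : Icc a b => ψ t) := hψ.domRestrict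
  have h2 : Continuous (fun t : Icc a b => χ t) := hχ.domRestrict
  have hc : IsClopen {t : Icc a b | ψ t = χ t} := by
    refine ⟨isClosed_eq h1 h2, isOpen_iff_mem_nhds.2 (fun t ht => ?_)⟩
    obtain ⟨e, L, heF, hs, -, -⟩ := chart F (ψ t) hF (hi t t.2)
    have ht' : ψ t = χ t := ht
    have hs' : χ t ∈ e.source := by rw [← ht']; exact hs
    filter_upwards [h1.continuousAt.eventually (e.open_source.mem_nhds hs),
      h2.continuousAt.eventually (e.open_source.mem_nhds hs')] with s s1 s2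
    exact e.injOn s1 s2 (by rw [heF]; exact he s s.2)
  have := hc.eq_univ ⟨⟨b, hab, le_rfl⟩, hb⟩
  exact eq_univ_iff_forall.1 this ⟨a, le_rfl, hab⟩

theorem br_exists {F : V → V} (hF : ContDiff ℝ 1 F) {U K : Set V} (hU : IsOpen U)
    (hK : IsCompact K) (hKU : K ⊆ U) (hi : ∀ y ∈ K, ∀ ξ, fderiv ℝ F y ξ = 0 → ξ = 0)
    {q : V} {t0 : ℝ} (hq : q ∈ U) (hq0 : F q = ax t0) :
    ∃ b ψ, t0 ≤ b ∧ ContinuousOn ψ (Icc t0 b) ∧ ψ t0 = q ∧
      (∀ t ∈ Icc t0 b, ψ t ∈ U ∧ F (ψ t) = ax t) ∧ ψ b ∉ K := by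
  by_contra hcon
  push Not at hcon
  let T : Set ℝ := {b | ∃ ψ : ℝ → V, t0 ≤ b ∧ ContinuousOn ψ (Icc t0 b) ∧ ψ t0 = q ∧
      ∀ t ∈ Icc t0 b, ψ t ∈ U ∧ F (ψ t) = ax t}
  have hne : T.Nonempty := ⟨t0, fun _ => q, le_rfl, continuousOn_const, rfl, fun t ht => by
    have : t = t0 := le_antisymm ht.2 ht.1
    rw [this]; exact ⟨hq, hq0⟩⟩
  have hFc : Continuous F := hF.continuous
  have hbd : BddAbove T := by
    obtain ⟨M, hM⟩ := (hK.image (f := fun y => F y 0) (by fun_prop)).bddAbove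
    refine ⟨M, fun b ⟨ψ, h1, h2, h3, h4⟩ => hM ⟨ψ b, hcon b ψ h1 h2 h3 h4, ?_⟩⟩
    simp [(h4 b ⟨h1, le_rfl⟩).2, ax]
  obtain ⟨bs, -, hlim, hbs⟩ := exists_seq_tendsto_sSup hne hbd
  choose ψ h1 h2 h3 h4 using hbs
  obtain ⟨r, hr, φ, hφ, hrl⟩ := hK.tendsto_subseq
    (x := fun n => ψ n (bs n)) (fun n => hcon _ _ (h1 n) (h2 n) (h3 n) (h4 n))
  have hlim' := hlim.comp hφ.tendsto_atTop
  have hFr : F r = ax (sSup T) := by
    refine tendsto_nhds_unique ((hFc.tendsto r).comp hrl) ?_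
    refine ((ax_cont.tendsto _).comp hlim').congr (fun n => ?_)
    exact ((h4 (φ n) _ ⟨h1 _, le_rfl⟩).2).symm
  obtain ⟨e, L, heF, hs, hL, -⟩ := chart F r hF (hi r hr)
  have ht : ax (sSup T) ∈ e.target := by rw [← hFr, ← heF]; exact e.map_source hs
  have hsr : e.symm (ax (sSup T)) = r := by rw [← hFr, ← heF]; exact e.left_inv hs
  have hev : ∀ᶠ t in 𝓝 (sSup T), ax t ∈ e.target ∧ e.symm (ax t) ∈ U := by
    refine (ax_cont.continuousAt.eventually (e.open_target.mem_nhds ht)).and ?_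
    have : ContinuousAt (fun t => e.symm (ax t)) (sSup T) :=
      (e.continuousAt_symm ht).comp ax_cont.continuousAt
    exact this.eventually (hU.mem_nhds (by simp only [hsr]; exact hKU hr))
  obtain ⟨δ, hδ, hb⟩ := Metric.eventually_nhds_iff.1 hev
  obtain ⟨n, hn1, hn2⟩ := ((hrl.eventually (e.open_source.mem_nhds hs)).and
    (hlim'.eventually (lt_mem_nhds (show sSup T - δ < sSup T by linarith)))).exists
  simp only [Function.comp] at hn1 hn2
  set k := φ n
  have hle : bs k ≤ sSup T := le_csSup hbd ⟨ψ k, h1 k, h2 k, h3 k, h4 k⟩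
  have hin : ∀ t ∈ Icc (bs k) (sSup T + δ / 2), ax t ∈ e.target ∧ e.symm (ax t) ∈ U := fun t ht =>
    hb (by rw [Real.dist_eq, abs_lt]; constructor <;> linarith only [ht.1, ht.2, hn2, hδ])
  have hj : e.symm (ax (bs k)) = ψ k (bs k) := by
    rw [← (h4 k _ ⟨h1 k, le_rfl⟩).2, ← heF]; exact e.left_inv hn1
  have hmem : sSup T + δ / 2 ∈ T := by
    refine ⟨fun t => if t ≤ bs k then ψ k t else e.symm (ax t), by linarith [h1 k], ?_,
      by simp [h1 k, h3 k], fun t ht => ?_⟩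
    · rw [← Icc_union_Icc_eq_Icc (h1 k) (show bs k ≤ sSup T + δ / 2 by linarith)]
      refine ContinuousOn.union_of_isClosed ?_ ?_ isClosed_Icc isClosed_Icc
      · exact (h2 k).congr (fun t ht => if_pos ht.2)
      · refine (e.continuousOn_symm.comp ax_cont.continuousOn (fun t ht => (hin t ht).1)).congr
          (fun t ht => ?_)
        by_cases h : t ≤ bs k
        · have : t = bs k := le_antisymm h ht.1
          simp [this, hj]
        · simp [h]
    · by_cases h : t ≤ bs k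
      · simpa [h] using h4 k t ⟨ht.1, h⟩
      · have := hin t ⟨(not_le.1 h).le, ht.2⟩
        simp only [h, if_false]
        exact ⟨this.2, by rw [← heF]; exact e.right_inv this.1⟩
  have := le_csSup hbd hmem
  linarith only [hδ, this]

theorem sard1 (v : ℝ → ℝ) (s : Set ℝ) (h : ∀ t ∈ s, HasDerivAt v 0 t) : volume (v '' s) = 0 := by
  refine addHaar_image_eq_zero_of_det_fderivWithin_eq_zero volume (f' := fun _ => 0)
    (fun t ht => ?_) (fun t _ => ?_)
  · simpa using (h t ht).hasFDerivAt.hasFDerivWithinAt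
  · simp [ContinuousLinearMap.det]

theorem extr {f f' : ℝ → ℝ} {a t b : ℝ} (h1 : a < t) (h2 : t < b)
    (hd : ∀ s ∈ Icc a b, HasDerivAt f (f' s) s) (ha : f a < f t) (hb : f b < f t) :
    ∃ c ∈ Icc a b, f' c = 0 := by
  obtain ⟨c, hc, hm⟩ := isCompact_Icc.exists_isMaxOn (nonempty_Icc.2 (h1.trans h2).le)
    (fun s hs => (hd s hs).continuousAt.continuousWithinAt)
  have := hm ⟨h1.le, h2.le⟩
  have hca : c ≠ a := by rintro rfl; exact absurd this (not_le.2 ha)
  have hcb : c ≠ b := by rintro rfl; exact absurd this (not_le.2 hb)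
  exact ⟨c, hc, (hm.isLocalMax (Icc_mem_nhds (lt_of_le_of_ne hc.1 hca.symm)
    (lt_of_le_of_ne hc.2 hcb))).hasDerivAt_eq_zero (hd c hc)⟩

theorem three {g w w' : ℝ → ℝ} {t1 t2 t3 k d η : ℝ} (h1 : t1 < t2) (h2 : t2 < t3)
    (hg : ContinuousOn g (Icc t1 t3)) (z1 : g t1 = 0) (z2 : g t2 = 0) (z3 : g t3 = 0)
    (hd : ∀ t ∈ Ioo t1 t3, HasDerivAt g (k * w t - d) t ∧ HasDerivAt w (w' t) t ∧ w' t ≠ η)
    (hk : k ≠ 0) (hη : |η| * (t3 - t1) < |w t2 - d / k|) : False := by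
  obtain ⟨a, ha, ea⟩ := exists_hasDerivAt_eq_zero h1 (hg.mono (Icc_subset_Icc_right h2.le))
    (z1.trans z2.symm) (fun t ht => (hd t ⟨ht.1, ht.2.trans h2⟩).1)
  obtain ⟨b, hb, eb⟩ := exists_hasDerivAt_eq_zero h2 (hg.mono (Icc_subset_Icc_left h1.le))
    (z2.trans z3.symm) (fun t ht => (hd t ⟨h1.trans ht.1, ht.2⟩).1)
  have wa : w a = d / k := by field_simp; linarith only [ea]
  have wb : w b = d / k := by field_simp; linarith only [eb]
  have hs : ∀ s ∈ Icc a b, s ∈ Ioo t1 t3 := fun s hs => ⟨ha.1.trans_le hs.1, hs.2.trans_lt hb.2⟩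
  have hD : ∀ s ∈ Icc a b, HasDerivAt (fun t => w t - η * t) (w' s - η) s := fun s h => by
    have := (hd s (hs s h)).2.1.sub ((hasDerivAt_id' s).const_mul η)
    rw [mul_one] at this
    exact this
  have e1 : |η * (t2 - a)| ≤ |η| * (t3 - t1) := by
    rw [abs_mul, abs_of_pos (sub_pos.2 ha.2)]
    exact mul_le_mul_of_nonneg_left (by linarith only [ha.1, h2]) (abs_nonneg _)
  have e2 : |η * (b - t2)| ≤ |η| * (t3 - t1) := by
    rw [abs_mul, abs_of_pos (sub_pos.2 hb.1)]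
    exact mul_le_mul_of_nonneg_left (by linarith only [hb.2, h1]) (abs_nonneg _)
  have e1 := abs_le.1 e1
  have e2 := abs_le.1 e2
  rcases lt_abs.1 hη with h | h
  · obtain ⟨c, hc, e⟩ := extr ha.2 hb.1 hD (by simp only [wa]; linarith only [e1, h]) (by simp only [wb]; linarith only [e2, h])
    exact (hd c (hs c hc)).2.2 (sub_eq_zero.1 e)
  · obtain ⟨c, hc, e⟩ := extr ha.2 hb.1 (fun s h => (hD s h).neg)
      (by simp only [Pi.neg_apply, wa]; linarith only [e1, h]) (by simp only [Pi.neg_apply, wb]; linarith only [e2, h])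
    exact (hd c (hs c hc)).2.2 (by linarith only [e])

theorem card_le_two {α : Type*} (s : Finset α) (t : α → ℝ) (hi : Set.InjOn t s)
    (h : ∀ a ∈ s, ∀ b ∈ s, ∀ c ∈ s, t a < t b → t b < t c → False) : s.card ≤ 2 := by
  classical
  by_contra hc
  obtain ⟨a, b, c, ha, hb, hc, ab, ac, bc⟩ := Finset.two_lt_card_iff.1 (not_le.1 hc)
  have ab' : t a ≠ t b := fun e => ab (hi ha hb e)
  have ac' : t a ≠ t c := fun e => ac (hi ha hc e)
  have bc' : t b ≠ t c := fun e => bc (hi hb hc e)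
  rcases lt_or_gt_of_ne ab' with h1 | h1 <;> rcases lt_or_gt_of_ne ac' with h2 | h2 <;>
    rcases lt_or_gt_of_ne bc' with h3 | h3
  · exact h a ha b hb c hc h1 h3
  · exact h a ha c hc b hb h2 h3
  · linarith only [h1, h2, h3]
  · exact h c hc a ha b hb h2 h1
  · exact h b hb a ha c hc h1 h2
  · linarith only [h1, h2, h3]
  · exact h b hb c hc a ha h3 h2
  · exact h c hc b hb a ha h3 h1

theorem avoid {α : Type*} (s : Finset α) (a b : α → ℝ) (h : ∀ x ∈ s, a x ≠ 0 ∨ b x ≠ 0)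
    {T : Set ℝ} (hT : T.Finite) : ∃ c, c ∉ T ∧ ∀ x ∈ s, a x + c * b x ≠ 0 := by
  obtain ⟨c, hc⟩ := (hT.union (s.finite_toSet.image (fun x => -a x / b x))).exists_notMem
  refine ⟨c, fun h => hc (Or.inl h), fun x hx e => hc (Or.inr ⟨x, hx, ?_⟩)⟩
  have hb : b x ≠ 0 := fun hb => by
    rcases h x hx with h | h
    · apply h; simpa [hb] using e
    · exact h hb
  field_simp; linarith

end Pool.Agent.MP_800a79_co.H62

end

-- part MP_800a79_co.H62.Fold
section

/-! Counting fold points on vertical planes, cell by cell. -/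

set_option autoImplicit false

namespace Pool.Agent.MP_800a79_co.H62

open Filter Topology Set MeasureTheory

noncomputable section

def ff (c : ℝ) (S : V → ℝ) : Fin 3 → V → ℝ := ![fun q => q 0 + c * q 1, S, pd 2 S]
def FF (c : ℝ) (S : V → ℝ) : V → V := fun x r => ff c S r x
def A0 (c : ℝ) (S : V → ℝ) (q : V) : ℝ := pd 1 S q - c * pd 0 S q
def N0 (S : V → ℝ) (q : V) : ℝ := -1 * pd 0 S q
def JJ (S : V → ℝ) (q : V) : V := ![pd 1 S q * pd 2 (pd 2 S) q, N0 S q * pd 2 (pd 2 S) q,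
  pd 0 S q * pd 1 (pd 2 S) q - pd 1 S q * pd 0 (pd 2 S) q]
def DJ (S f : V → ℝ) (q : V) : ℝ := JJ S q 0 * pd 0 f q + JJ S q 1 * pd 1 f q + JJ S q 2 * pd 2 f q
def AA (c : ℝ) (S : V → ℝ) (q : V) : ℝ := pd 2 (pd 2 S) q * A0 c S q
def HH (c : ℝ) (S : V → ℝ) (q : V) : ℝ := DJ S (N0 S) q * A0 c S q - N0 S q * DJ S (A0 c S) q
def nsq (q : V) : ℝ := q 0 * q 0 + q 1 * q 1 + q 2 * q 2
def WW (c η ρ : ℝ) (S Q : V → ℝ) (q : V) : ℝ :=
  Q q * AA c S q * (HH c S q - η * (AA c S q * A0 c S q ^ 2)) * (ρ - nsq q)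

variable {D : ℕ} {S Q : V → ℝ} {c : ℝ}

theorem pd_u (c : ℝ) : PD 1 (fun q : V => q 0 + c * q 1) := (PD.coord 0).add ((PD.coord 1).smul c)

theorem ff_PD (hD : 1 ≤ D) (hS : PD D S) (r : Fin 3) : PD D (ff c S r) := by
  fin_cases r
  · exact (pd_u c).mono hD
  · exact hS
  · exact hS.pd 2

theorem FF_cd (hD : 1 ≤ D) (hS : PD D S) : ContDiff ℝ 1 (FF c S) :=
  contDiff_pi.2 (fun r => (ff_PD hD hS r).contDiff)

theorem A0_PD (hS : PD D S) : PD D (A0 c S) := (hS.pd 1).sub ((hS.pd 0).smul c)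
theorem N0_PD (hS : PD D S) : PD D (N0 S) := (hS.pd 0).smul (-1)
theorem AA_PD (hS : PD D S) : PD (D + D) (AA c S) := ((hS.pd 2).pd 2).mul (A0_PD hS)

theorem DJ_PD (hS : PD D S) {f : V → ℝ} (hf : PD D f) : PD (D + D + D) (DJ S f) :=
  ((((hS.pd 1).mul ((hS.pd 2).pd 2)).mul (hf.pd 0)).add
    (((N0_PD hS).mul ((hS.pd 2).pd 2)).mul (hf.pd 1))).add
    ((((hS.pd 0).mul ((hS.pd 2).pd 1)).sub ((hS.pd 1).mul ((hS.pd 2).pd 0))).mul (hf.pd 2))

theorem nsq_PD : PD 2 nsq :=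
  (((PD.coord 0).mul (PD.coord 0)).add ((PD.coord 1).mul (PD.coord 1))).add
    ((PD.coord 2).mul (PD.coord 2))

theorem WW_PD (hD : 1 ≤ D) (hS : PD D S) (hQ : PD D Q) (η ρ : ℝ) : PD (9 * D) (WW c η ρ S Q) := by
  have h1 : PD (4 * D) (HH c S) :=
    (((DJ_PD hS (N0_PD hS)).mul (A0_PD hS)).mono (by omega)).sub
      (((N0_PD hS).mul (DJ_PD hS (A0_PD hS))).mono (by omega))
  have h2 : PD (4 * D) (fun q => AA c S q * A0 c S q ^ 2) :=
    ((AA_PD hS).mul ((A0_PD hS).pow 2)).mono (by omega)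
  exact (((hQ.mul (AA_PD hS)).mul (h1.sub (h2.smul η))).mul
    ((PD.const 2 ρ).sub nsq_PD)).mono (by omega)

theorem tang (hD : 1 ≤ D) (hS : PD D S) {q : V} (hZ : pd 2 S q = 0) (hA : AA c S q ≠ 0) {ξ : V}
    {a : ℝ} (h : fderiv ℝ (FF c S) q ξ = ax a) : ξ = (a / AA c S q) • JJ S q := by
  have e : ∀ r, fderiv ℝ (ff c S r) q ξ = ax a r := fun r => by
    rw [← fderiv_pi3 _ (ff_PD hD hS) q ξ r]; exact congrFun h r
  have e0 : ξ 0 + c * ξ 1 = a := by
    have h1 := ((hasFDerivAt_apply (𝕜 := ℝ) (0 : Fin 3) q).add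
      ((hasFDerivAt_apply (𝕜 := ℝ) (1 : Fin 3) q).const_mul c)).fderiv
    have h2 := e 0
    have e3 : ff c S 0 = (fun f : V => f 0) + fun y : V => c * y 1 := rfl
    rw [e3, h1] at h2
    simpa [ax] using h2
  have e1 : ξ 0 * pd 0 S q + ξ 1 * pd 1 S q + ξ 2 * pd 2 S q = 0 := by
    rw [← fderiv_eq]; exact e 1
  have e2 : ξ 0 * pd 0 (pd 2 S) q + ξ 1 * pd 1 (pd 2 S) q + ξ 2 * pd 2 (pd 2 S) q = 0 := by
    rw [← fderiv_eq]; exact e 2
  rw [hZ] at e1
  have h1 := left_ne_zero_of_mul hA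
  have h2 := right_ne_zero_of_mul hA
  simp only [A0] at h2
  have x0 : ξ 0 * (pd 1 S q - c * pd 0 S q) = a * pd 1 S q := by
    rw [← e0]; linear_combination (-c) * e1
  have x1 : ξ 1 * (pd 1 S q - c * pd 0 S q) = -a * pd 0 S q := by
    rw [← e0]; linear_combination e1
  funext k
  fin_cases k
  · simp [JJ, AA, A0]; field_simp; linear_combination x0
  · simp [JJ, AA, A0, N0]; field_simp; linear_combination x1
  · simp [JJ, AA, A0]; field_simp
    linear_combination (pd 1 S q - c * pd 0 S q) * e2 - pd 0 (pd 2 S) q * x0 - pd 1 (pd 2 S) q * x1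

theorem FF_inj (hD : 1 ≤ D) (hS : PD D S) {q : V} (hZ : pd 2 S q = 0) (hA : AA c S q ≠ 0) (ξ : V)
    (h : fderiv ℝ (FF c S) q ξ = 0) : ξ = 0 := by
  have := tang hD hS hZ hA (a := 0) (h.trans (by simp [ax]))
  simpa using this

theorem FF_ax {q : V} {t : ℝ} (h : FF c S q = ax t) :
    q 0 + c * q 1 = t ∧ S q = 0 ∧ pd 2 S q = 0 :=
  ⟨by simpa [ax, FF, ff] using congrFun h 0, by simpa [ax, FF, ff] using congrFun h 1,
    by simpa [ax, FF, ff] using congrFun h 2⟩

theorem WW_ne {η ρ : ℝ} {q : V} (h : WW c η ρ S Q q ≠ 0) :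
    Q q ≠ 0 ∧ AA c S q ≠ 0 ∧ HH c S q / (AA c S q * A0 c S q ^ 2) ≠ η := by
  have h1 := left_ne_zero_of_mul h
  have h2 := left_ne_zero_of_mul h1
  have h3 := right_ne_zero_of_mul h2
  refine ⟨left_ne_zero_of_mul h2, h3, fun e => right_ne_zero_of_mul h1 ?_⟩
  have := right_ne_zero_of_mul h3
  rw [← e]; field_simp; ring

/-- derivative along a branch -/
theorem br_tan (hD : 1 ≤ D) (hS : PD D S) {ψ : ℝ → V} {a b t : ℝ} (hψ : ContinuousOn ψ (Icc a b))
    (hF : ∀ s ∈ Icc a b, FF c S (ψ s) = ax s) (ht : t ∈ Ioo a b) (hA : AA c S (ψ t) ≠ 0) :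
    HasDerivAt ψ ((1 / AA c S (ψ t)) • JJ S (ψ t)) t := by
  have hn := Icc_mem_nhds ht.1 ht.2
  have hZ := (FF_ax (hF t (Ioo_subset_Icc_self ht))).2.2
  obtain ⟨ξ, h1, h2⟩ := br_deriv (FF_cd hD hS) (hψ.continuousAt hn)
    (by filter_upwards [hn] with s hs using hF s hs) (FF_inj hD hS hZ hA)
  rwa [tang hD hS hZ hA h2] at h1

theorem br_DJ {n : ℕ} {f : V → ℝ} (hf : PD n f) {ψ : ℝ → V} {t : ℝ}
    (h : HasDerivAt ψ ((1 / AA c S (ψ t)) • JJ S (ψ t)) t) :
    HasDerivAt (fun s => f (ψ s)) (DJ S f (ψ t) / AA c S (ψ t)) t := by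
  convert hf.curve h using 1
  simp only [DJ, Pi.smul_apply, smul_eq_mul]
  ring

theorem br_three (hD : 1 ≤ D) (hS : PD D S) {η ρ d1 d2 γ t1 t2 t3 : ℝ} {ψ : ℝ → V}
    (h1 : t1 < t2) (h2 : t2 < t3) (hψ : ContinuousOn ψ (Icc t1 t3))
    (hF : ∀ s ∈ Icc t1 t3, WW c η ρ S Q (ψ s) ≠ 0 ∧ FF c S (ψ s) = ax s)
    (z1 : d1 * ψ t1 1 - d2 * ψ t1 0 = γ) (z2 : d1 * ψ t2 1 - d2 * ψ t2 0 = γ)
    (z3 : d1 * ψ t3 1 - d2 * ψ t3 0 = γ) (hk : d1 + c * d2 ≠ 0)
    (hη : |η| * (t3 - t1) < |N0 S (ψ t2) / A0 c S (ψ t2) - d2 / (d1 + c * d2)|) : False := by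
  refine three (g := fun t => d1 * ψ t 1 - d2 * ψ t 0 - γ)
    (w := fun t => N0 S (ψ t) / A0 c S (ψ t))
    (w' := fun t => HH c S (ψ t) / (AA c S (ψ t) * A0 c S (ψ t) ^ 2)) h1 h2 ?_
    (sub_eq_zero.2 z1) (sub_eq_zero.2 z2) (sub_eq_zero.2 z3) (fun t ht => ?_) hk hη
  · have a1 : ContinuousOn (fun t => ψ t 1) (Icc t1 t3) := (continuous_apply 1).comp_continuousOn hψ
    have a0 : ContinuousOn (fun t => ψ t 0) (Icc t1 t3) := (continuous_apply 0).comp_continuousOn hψ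
    exact ((continuousOn_const.mul a1).sub (continuousOn_const.mul a0)).sub continuousOn_const
  obtain ⟨-, hA, hH⟩ := WW_ne (hF t (Ioo_subset_Icc_self ht)).1
  have hd := br_tan hD hS hψ (fun s hs => (hF s hs).2) ht hA
  have a1 := left_ne_zero_of_mul hA
  have a2 := right_ne_zero_of_mul hA
  refine ⟨?_, ?_, hH⟩
  · refine ((((hasDerivAt_pi.1 hd 1).const_mul d1).sub
      ((hasDerivAt_pi.1 hd 0).const_mul d2)).sub_const γ).congr_deriv ?_
    simp only [JJ, AA, Pi.smul_apply, smul_eq_mul, Matrix.cons_val_zero, Matrix.cons_val_one]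
    field_simp
    simp only [A0, N0]
    ring
  · refine ((br_DJ (N0_PD hS) hd).div (br_DJ (A0_PD (c := c) hS) hd) a2).congr_deriv ?_
    simp only [HH]
    field_simp

open Classical in
theorem fold_count {ι : Type*} (hD : 1 ≤ D) (hS : PD D S) (hQ : PD D Q) (d1 d2 γ : ι → ℝ)
    (X : Finset (ι × V)) (θ : ℝ) (hθ0 : 0 ≤ θ)
    (hX : ∀ x ∈ X, d1 x.1 * x.2 1 - d2 x.1 * x.2 0 = γ x.1 ∧ S x.2 = 0 ∧ pd 2 S x.2 = 0 ∧
      d1 x.1 * pd 0 S x.2 + d2 x.1 * pd 1 S x.2 ≠ 0 ∧ pd 2 (pd 2 S) x.2 ≠ 0 ∧ Q x.2 ≠ 0)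
    (hθ : ∀ y, (((X.filter (fun x => cell Q x.2 = cell Q y)).image Prod.fst).card : ℝ) ≤ θ) :
    (X.card : ℝ) ≤ 2 * θ * (64 * (18 * D) ^ 3) := by
  -- sweep direction
  obtain ⟨c, -, hc⟩ := avoid (X ×ˢ (Finset.univ : Finset Bool))
    (fun x => if x.2 then d1 x.1.1 else pd 1 S x.1.2)
    (fun x => if x.2 then d2 x.1.1 else -pd 0 S x.1.2) (by
      rintro ⟨x, b⟩ hx
      have := (hX x (Finset.mem_product.1 hx).1).2.2.2.1
      by_contra hn
      push Not at hn
      cases b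
      · simp only [Bool.false_eq_true, if_false, neg_eq_zero] at hn
        apply this; rw [hn.1, hn.2]; ring
      · simp only [if_true] at hn
        apply this; rw [hn.1, hn.2]; ring) finite_empty
  have hk : ∀ x ∈ X, d1 x.1 + c * d2 x.1 ≠ 0 := fun x hx => by
    simpa only [ne_eq, ↓ reduceIte] using hc (x, true) (by simp [hx])
  have hA0 : ∀ x ∈ X, A0 c S x.2 ≠ 0 := fun x hx => by
    have := hc (x, false) (by simp [hx])
    simpa only [A0, Fin.isValue, sub_eq_add_neg, ne_eq, Bool.false_eq_true, ↓ reduceIte, mul_neg] using this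
  have hA : ∀ x ∈ X, AA c S x.2 ≠ 0 := fun x hx => mul_ne_zero (hX x hx).2.2.2.2.1 (hA0 x hx)
  let u : ι × V → ℝ := fun x => x.2 0 + c * x.2 1
  let Δ : ι × V → ℝ := fun x => N0 S x.2 / A0 c S x.2 - d2 x.1 / (d1 x.1 + c * d2 x.1)
  have hΔ : ∀ x ∈ X, Δ x ≠ 0 := fun x hx e => by
    apply (hX x hx).2.2.2.1
    have a1 := hk x hx
    have a2 := hA0 x hx
    simp only [Δ] at e
    rw [sub_eq_zero, div_eq_div_iff a2 a1] at e
    simp only [A0, N0] at e
    linear_combination -e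
  have hev : ∀ᶠ η in 𝓝 (0 : ℝ), ∀ x ∈ X, ∀ x1 ∈ X, ∀ x3 ∈ X, |η| * (u x3 - u x1) < |Δ x| := by
    refine X.finite_toSet.eventually_all.2 (fun x hx => X.finite_toSet.eventually_all.2
      (fun x1 _ => X.finite_toSet.eventually_all.2 (fun x3 _ => ?_)))
    exact ContinuousAt.eventually_lt (f := fun η : ℝ => |η| * (u x3 - u x1)) (by fun_prop)
      continuousAt_const (by simpa using hΔ x hx)
  obtain ⟨η, hη, hη'⟩ := (infinite_of_mem_nhds _ hev).exists_notMem_finite
    (X.finite_toSet.image (fun x => HH c S x.2 / (AA c S x.2 * A0 c S x.2 ^ 2)))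
  set ρ := ∑ x ∈ X, nsq x.2 + 1 with hρ
  have hn0 : ∀ q, 0 ≤ nsq q := fun q =>
    add_nonneg (add_nonneg (mul_self_nonneg _) (mul_self_nonneg _)) (mul_self_nonneg _)
  have hρx : ∀ x ∈ X, nsq x.2 < ρ := fun x hx => by
    have := Finset.single_le_sum (f := fun x : ι × V => nsq x.2) (fun x _ => hn0 _) hx
    linarith only [this]
  set W := WW c η ρ S Q with hW
  have hWP : PD (9 * D) W := WW_PD hD hS hQ η ρ
  have hWx : ∀ x ∈ X, W x.2 ≠ 0 := fun x hx => by
    refine mul_ne_zero (mul_ne_zero (mul_ne_zero (hX x hx).2.2.2.2.2 (hA x hx)) (fun e => ?_))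
      (sub_ne_zero.2 (hρx x hx).ne')
    refine hη' ⟨x, hx, ?_⟩
    have a1 := hA x hx
    have a2 := hA0 x hx
    simp only
    field_simp
    linear_combination e
  obtain ⟨ε0, hε1, hε0⟩ : ∃ ε0 : ℝ, (∀ x ∈ X, ε0 < W x.2 ^ 2) ∧ 0 < ε0 := by
    have : ∀ᶠ ε in 𝓝 (0 : ℝ), ∀ x ∈ X, ε < W x.2 ^ 2 :=
      X.finite_toSet.eventually_all.2 (fun x hx => gt_mem_nhds (by have := hWx x hx; positivity))
    exact ((this.filter_mono (nhdsWithin_le_nhds (s := Ioi 0))).and self_mem_nhdsWithin).exists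
  have hFx : ∀ x ∈ X, FF c S x.2 = ax (u x) := fun x hx => by
    funext r
    fin_cases r
    · simp [FF, ff, ax, u]
    · simp [FF, ff, ax, (hX x hx).2.1]
    · simp [FF, ff, ax, (hX x hx).2.2.1]
  have hbr : ∀ x ∈ X, ∃ b ψ, u x ≤ b ∧ ContinuousOn ψ (Icc (u x) b) ∧ ψ (u x) = x.2 ∧
      (∀ t ∈ Icc (u x) b, W (ψ t) ≠ 0 ∧ FF c S (ψ t) = ax t) ∧ W (ψ b) ^ 2 < ε0 / 2 := by
    intro x hx
    have cW := hWP.continuous
    have cn := nsq_PD.continuous
    have cS := hS.continuous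
    have cZ := (hS.pd 2).continuous
    have hW0 : ∀ y, ε0 / 2 ≤ W y ^ 2 → W y ≠ 0 := fun y hy e => by rw [e] at hy; linarith only [hε0, hy]
    obtain ⟨b, ψ, b1, b2, b3, b4, b5⟩ := br_exists (FF_cd (c := c) hD hS)
      (U := {y | W y ≠ 0 ∧ nsq y < ρ})
      (K := {y | nsq y ≤ ρ ∧ ε0 / 2 ≤ W y ^ 2 ∧ S y = 0 ∧ pd 2 S y = 0})
      ((isOpen_ne_fun cW continuous_const).inter (isOpen_lt cn continuous_const))
      (Metric.isCompact_of_isClosed_isBounded
        ((isClosed_le cn continuous_const).and ((isClosed_le continuous_const (cW.pow 2)).and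
          ((isClosed_eq cS continuous_const).and (isClosed_eq cZ continuous_const))))
        ((Metric.isBounded_closedBall (x := (0 : V)) (r := ρ + 1)).subset (fun y hy => by
          have h1 : nsq y ≤ ρ := hy.1
          have h0 := hn0 y
          rw [mem_closedBall_zero_iff, pi_norm_le_iff_of_nonneg (by linarith)]
          intro k
          rw [Real.norm_eq_abs, abs_le]
          simp only [nsq] at h1 h0
          fin_cases k <;> simp only [neg_add_rev, Fin.zero_eta, Fin.isValue, add_neg_le_iff_le_add, Fin.mk_one, Fin.reduceFinMk] <;> constructor <;> linarith only [mul_self_nonneg (y 0), mul_self_nonneg (y 1), mul_self_nonneg (y 2), mul_self_nonneg (y 0 - 1), mul_self_nonneg (y 1 - 1), mul_self_nonneg (y 2 - 1), mul_self_nonneg (y 0 + 1), mul_self_nonneg (y 1 + 1), mul_self_nonneg (y 2 + 1), h1])))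
      (fun y hy => ⟨hW0 y hy.2.1, lt_of_le_of_ne hy.1 (fun e =>
        right_ne_zero_of_mul (hW0 y hy.2.1) (sub_eq_zero.2 e.symm))⟩)
      (fun y hy => FF_inj hD hS hy.2.2.2 (WW_ne (hW0 y hy.2.1)).2.1)
      (show x.2 ∈ _ from ⟨hWx x hx, hρx x hx⟩) (hFx x hx)
    refine ⟨b, ψ, b1, b2, b3, fun t ht => ⟨(b4 t ht).1.1, (b4 t ht).2⟩, ?_⟩
    by_contra hn
    have := b4 b ⟨b1, le_rfl⟩
    exact b5 ⟨this.1.2.le, not_lt.1 hn, (FF_ax this.2).2⟩
  choose! b ψ b1 b2 b3 b4 b5 using hbr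
  have hnull : volume (⋃ x ∈ X, (fun t => W (ψ x t) ^ 2) ''
      {t | HasDerivAt (fun t => W (ψ x t) ^ 2) 0 t}) = 0 :=
    (measure_biUnion_null_iff X.countable_toSet).2 (fun x _ => sard1 _ _ (fun t ht => ht))
  obtain ⟨ε, hε, hε'⟩ : ∃ ε ∈ Ioo (ε0 / 2) ε0, ε ∉ ⋃ x ∈ X, (fun t => W (ψ x t) ^ 2) ''
      {t | HasDerivAt (fun t => W (ψ x t) ^ 2) 0 t} := by
    by_contra hn
    push Not at hn
    have := measure_mono_null hn hnull
    simp only [Real.volume_Ioo, ENNReal.ofReal_eq_zero] at this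
    linarith only [hε0, this]
  have hterm : ∀ x ∈ X, ∃ t ∈ Ioo (u x) (b x), W (ψ x t) ^ 2 = ε := fun x hx =>
    intermediate_value_Ioo' (f := fun t => W (ψ x t) ^ 2) (b1 x hx)
      ((hWP.continuous.comp_continuousOn (b2 x hx)).pow 2)
      ⟨(b5 x hx).trans hε.1, by simp only [b3 x hx]; exact hε.2.trans (hε1 x hx)⟩
  choose! τ τ1 τ2 using hterm
  let z : ι × V → V := fun x => ψ x (τ x)
  have hz : ∀ x ∈ X, W (z x) ≠ 0 ∧ FF c S (z x) = ax (τ x) := fun x hx =>
    b4 x hx _ (Ioo_subset_Icc_self (τ1 x hx))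
  have hG : PD (18 * D) (fun y => W y ^ 2 - ε) :=
    ((hWP.pow 2).mono (by omega)).sub (PD.const _ _)
  have hZ : (X.image z).card ≤ 64 * (18 * D) ^ 3 := by
    refine bezout (by omega) ![S, pd 2 S, fun y => W y ^ 2 - ε] (fun r => ?_) _ ?_ ?_
    · fin_cases r
      exacts [hS.mono (by omega), (hS.pd 2).mono (by omega), hG]
    · simp only [Finset.mem_image]
      rintro _ ⟨x, hx, rfl⟩ r
      fin_cases r
      exacts [(FF_ax (hz x hx).2).2.1, (FF_ax (hz x hx).2).2.2, sub_eq_zero.2 (τ2 x hx)]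
    · simp only [Finset.mem_image]
      rintro _ ⟨x, hx, rfl⟩ ξ hξ
      have hAz := (WW_ne (hz x hx).1).2.1
      have e1 : fderiv ℝ (FF c S) (z x) ξ = ax (fderiv ℝ (FF c S) (z x) ξ 0) := by
        funext r
        fin_cases r
        · simp [ax]
        · exact (fderiv_pi3 _ (ff_PD hD hS) _ ξ 1).trans (hξ 0)
        · exact (fderiv_pi3 _ (ff_PD hD hS) _ ξ 2).trans (hξ 1)
      have e2 := tang hD hS (FF_ax (hz x hx).2).2.2 hAz e1
      set a := fderiv ℝ (FF c S) (z x) ξ 0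
      by_cases ha : a = 0
      · rw [e2, ha]; simp
      exfalso
      have hd := br_tan hD hS (b2 x hx) (fun s hs => (b4 x hx s hs).2) (τ1 x hx) hAz
      have h3 := (hG.diff (z x)).comp_hasDerivAt (τ x) hd
      have e3 : fderiv ℝ (fun y => W y ^ 2 - ε) (z x) ξ = 0 := hξ 2
      have e4 : (1 / AA c S (ψ x (τ x))) • JJ S (ψ x (τ x)) = a⁻¹ • ξ := by
        rw [e2, smul_smul]; congr 1; simp only [z]; field_simp
      rw [e4, map_smul, e3, smul_zero] at h3
      refine hε' (mem_iUnion₂.2 ⟨x, hx, τ x, ?_, τ2 x hx⟩)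
      have := h3.add_const ε
      simpa [Function.comp_def] using this
  -- fibres
  have hsame : ∀ x ∈ X, ∀ x' ∈ X, z x = z x' → u x ≤ u x' → ψ x (u x') = x'.2 ∧ u x' ≤ b x := by
    intro x hx x' hx' e hu
    have et : τ x = τ x' := by
      rw [← (FF_ax (hz x hx).2).1, ← (FF_ax (hz x' hx').2).1, e]
    have s1 : Icc (u x') (τ x') ⊆ Icc (u x) (b x) :=
      Icc_subset_Icc hu (by rw [← et]; exact (τ1 x hx).2.le)
    have s2 : Icc (u x') (τ x') ⊆ Icc (u x') (b x') := Icc_subset_Icc le_rfl (τ1 x' hx').2.le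
    refine ⟨?_, (s1 ⟨le_rfl, (τ1 x' hx').1.le⟩).2⟩
    rw [← b3 x' hx']
    refine br_uniq (FF_cd (c := c) hD hS) (τ1 x' hx').1.le ((b2 x hx).mono s1) ((b2 x' hx').mono s2)
      (fun t ht => ((b4 x hx t (s1 ht)).2).trans (b4 x' hx' t (s2 ht)).2.symm)
      (fun t ht => FF_inj hD hS (FF_ax (b4 x hx t (s1 ht)).2).2.2 (WW_ne (b4 x hx t (s1 ht)).1).2.1) ?_
    rw [← et]
    exact e.trans (by simp only [z, et])
  have hfib : ∀ y ∈ X.image z, ((X.filter (fun x => z x = y)).card : ℝ) ≤ 2 * θ := by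
    intro y _
    set Y := X.filter (fun x => z x = y)
    have h2 : Y.card ≤ 2 * (Y.image Prod.fst).card := by
      refine Finset.card_le_mul_card_image _ 2 (fun i _ => card_le_two _ u ?_ ?_)
      · intro x hx x' hx' e
        simp only [Y, Finset.coe_filter, Finset.mem_filter, mem_ofPred_eq] at hx hx'
        have := (hsame x hx.1.1 x' hx'.1.1 (hx.1.2.trans hx'.1.2.symm) e.le).1
        rw [← e, b3 x hx.1.1] at this
        exact Prod.ext (hx.2.trans hx'.2.symm) this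
      · intro x1 h1 x2 h2 x3 h3 l1 l2
        simp only [Y, Finset.mem_filter] at h1 h2 h3
        obtain ⟨e2, -⟩ := hsame x1 h1.1.1 x2 h2.1.1 (h1.1.2.trans h2.1.2.symm) l1.le
        obtain ⟨e3, f3⟩ := hsame x1 h1.1.1 x3 h3.1.1 (h1.1.2.trans h3.1.2.symm) (l1.trans l2).le
        have s1 : Icc (u x1) (u x3) ⊆ Icc (u x1) (b x1) := Icc_subset_Icc le_rfl f3
        refine br_three (Q := Q) (η := η) (ρ := ρ) (d1 := d1 i) (d2 := d2 i) (γ := γ i) hD hS l1 l2
          ((b2 x1 h1.1.1).mono s1) (fun s hs => b4 x1 h1.1.1 s (s1 hs)) ?_ ?_ ?_ ?_ ?_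
        · rw [b3 x1 h1.1.1, ← h1.2]; exact (hX x1 h1.1.1).1
        · rw [e2, ← h2.2]; exact (hX x2 h2.1.1).1
        · rw [e3, ← h3.2]; exact (hX x3 h3.1.1).1
        · rw [← h1.2]; exact hk x1 h1.1.1
        · rw [e2, ← h2.2]; exact hη x2 h2.1.1 x1 h1.1.1 x3 h3.1.1
    have h3 : Y ⊆ X.filter (fun x => cell Q x.2 = cell Q y) := by
      intro x hx
      simp only [Y, Finset.mem_filter] at hx ⊢
      refine ⟨hx.1, cell_eq (A := ψ x '' Icc (u x) (b x))
        (isPreconnected_Icc.image _ (b2 x hx.1)) ?_ ⟨u x, ⟨le_rfl, b1 x hx.1⟩, b3 x hx.1⟩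
        ⟨τ x, Ioo_subset_Icc_self (τ1 x hx.1), hx.2⟩⟩
      rintro _ ⟨t, ht, rfl⟩
      exact (WW_ne (b4 x hx.1 t ht).1).1
    have h4 : ((Y.image Prod.fst).card : ℝ) ≤ θ :=
      le_trans (by exact_mod_cast Finset.card_le_card (Finset.image_subset_image h3)) (hθ y)
    have : (Y.card : ℝ) ≤ 2 * (Y.image Prod.fst).card := by exact_mod_cast h2
    linarith only [h4, this]
  rw [Finset.card_eq_sum_card_image z X]
  push_cast
  refine (Finset.sum_le_card_nsmul _ _ _ hfib).trans ?_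
  rw [nsmul_eq_mul, mul_comm]
  exact mul_le_mul_of_nonneg_left (by exact_mod_cast hZ) (by linarith only [hθ0])

end

end Pool.Agent.MP_800a79_co.H62

end

-- part MP_800a79_co.H62.Edge
section

/-! Generic perturbation, and the level predicate along an edge. -/

set_option autoImplicit false

namespace Pool.Agent.MP_800a79_co.H62

open Filter Topology Set MeasureTheory

/-- the point at height `z` over the point with parameter `t` of the planar line `p + t d` -/
def pt (p d : ℝ × ℝ) (t z : ℝ) : V := ![p.1 + t * d.1, p.2 + t * d.2, z]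

theorem pt_cont (p d : ℝ × ℝ) : Continuous (fun x : ℝ × ℝ => pt p d x.1 x.2) := by
  refine continuous_pi (fun k => ?_)
  fin_cases k <;> simp [pt] <;> fun_prop

theorem pt_deriv (p d : ℝ × ℝ) (t z v w : ℝ) :
    HasDerivAt (fun s : ℝ => pt p d (t + s * v) (z + s * w)) ![v * d.1, v * d.2, w] 0 := by
  refine hasDerivAt_pi.2 (fun k => ?_)
  have h := hasDerivAt_id' (0 : ℝ)
  fin_cases k
  · exact ((((h.mul_const v).const_add t).mul_const d.1).const_add p.1).congr_deriv (by simp)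
  · exact ((((h.mul_const v).const_add t).mul_const d.2).const_add p.2).congr_deriv (by simp)
  · exact ((h.mul_const w).const_add z).congr_deriv (by simp)

theorem vert_deriv {n : ℕ} {S : V → ℝ} (hS : PD n S) (p d : ℝ × ℝ) (t z : ℝ) :
    HasDerivAt (fun w => S (pt p d t w)) (pd 2 S (pt p d t z)) z := by
  have : HasDerivAt (fun w : ℝ => pt p d t w) ![0, 0, 1] z := by
    refine hasDerivAt_pi.2 (fun k => ?_)
    fin_cases k
    · exact hasDerivAt_const _ _
    · exact hasDerivAt_const _ _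
    · exact hasDerivAt_id' z
  exact (hS.curve this).congr_deriv (by simp)

theorem sard2 (Φ : ℝ × ℝ → ℝ × ℝ) (hΦ : Differentiable ℝ Φ) (s : Set (ℝ × ℝ))
    (h : ∀ x ∈ s, ∃ v : ℝ × ℝ, v ≠ 0 ∧ HasDerivAt (fun r : ℝ => Φ (x + r • v)) 0 0) :
    volume (Φ '' s) = 0 := by
  refine addHaar_image_eq_zero_of_det_fderivWithin_eq_zero volume (f' := fun x => fderiv ℝ Φ x)
    (fun x _ => (hΦ x).hasFDerivAt.hasFDerivWithinAt) (fun x hx => ?_)
  obtain ⟨v, hv, hd⟩ := h x hx
  have h1 : HasDerivAt (fun r : ℝ => x + r • v) v 0 := by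
    simpa using ((hasDerivAt_id' (0 : ℝ)).smul_const v).const_add x
  have h2 := (hΦ (x + (0 : ℝ) • v)).hasFDerivAt.comp_hasDerivAt (0 : ℝ) h1
  have h3 := h2.unique hd
  rw [zero_smul, add_zero] at h3
  by_contra hdet
  have := (LinearMap.equivOfDetNeZero _ hdet).injective (a₁ := v) (a₂ := 0) (by simpa using h3)
  exact hv this

theorem pd_pert {n : ℕ} {S : V → ℝ} (hS : PD n S) (a b : ℝ) (k : Fin 3) (q : V) :
    pd k (fun q => S q - a - b * q 2) q = pd k S q - b * (Pi.single k 1 : V) 2 := by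
  have := (((hS.diff q).sub_const a).sub ((hasFDerivAt_apply (𝕜 := ℝ) (2 : Fin 3) q).const_mul b)).fderiv
  have e : (fun q : V => S q - a - b * q 2) = (fun x => S x - a) - fun y : V => b * y 2 := rfl
  simp only [pd]
  rw [e, this]
  simp

/-- all folds over the given lines are nondegenerate -/
def Gen {ι : Type*} (p d : ι → ℝ × ℝ) (S : V → ℝ) : Prop :=
  ∀ i t z, S (pt (p i) (d i) t z) = 0 → pd 2 S (pt (p i) (d i) t z) = 0 →
    (d i).1 * pd 0 S (pt (p i) (d i) t z) + (d i).2 * pd 1 S (pt (p i) (d i) t z) ≠ 0 ∧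
      pd 2 (pd 2 S) (pt (p i) (d i) t z) ≠ 0

theorem perturb {ι : Type*} [Fintype ι] {n : ℕ} (hn : 1 ≤ n) {S : V → ℝ} (hS : PD n S)
    (p d : ι → ℝ × ℝ) (h : ι → ℝ) {δ B : ℝ} (hδ : 0 < δ) (hB : 0 ≤ B) :
    ∃ T : V → ℝ, PD n T ∧ Gen p d T ∧ (∀ i, T (pt (p i) (d i) 0 (h i)) ≠ 0) ∧
      ∀ q : V, |q 2| ≤ B → |T q - S q| < δ := by
  have hZ := hS.pd 2
  let Φ : ι → ℝ × ℝ → ℝ × ℝ := fun i x =>
    (S (pt (p i) (d i) x.1 x.2) - x.2 * pd 2 S (pt (p i) (d i) x.1 x.2),
      pd 2 S (pt (p i) (d i) x.1 x.2))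
  let C : ι → Set (ℝ × ℝ) := fun i => {x | (d i).1 * pd 0 S (pt (p i) (d i) x.1 x.2) +
    (d i).2 * pd 1 S (pt (p i) (d i) x.1 x.2) = 0 ∨ pd 2 (pd 2 S) (pt (p i) (d i) x.1 x.2) = 0}
  let Ψ : ι → ℝ × ℝ → ℝ × ℝ := fun i x => (S (pt (p i) (d i) 0 (h i)) - x.1 * h i, x.1)
  have h1 : ∀ i, volume (Φ i '' C i) = 0 := by
    intro i
    have hpt : Differentiable ℝ (fun x : ℝ × ℝ => pt (p i) (d i) x.1 x.2) := by
      refine differentiable_pi.2 (fun k => ?_)
      fin_cases k <;> simp only [pt, Fin.zero_eta, Fin.isValue, Matrix.cons_val_zero, differentiable_const, differentiable_const_add_iff, differentiable_fun_id, Differentiable.fst, Differentiable.fun_mul, Fin.mk_one, Matrix.cons_val_one, Fin.reduceFinMk, Matrix.cons_val, Differentiable.snd] <;> fun_prop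
    have a1 := (hS.contDiff.differentiable (by simp)).comp hpt
    have a2 := (hZ.contDiff.differentiable (by simp)).comp hpt
    refine sard2 _ ((a1.sub (differentiable_snd.mul a2)).prodMk a2) _ (fun x hx => ?_)
    have key : ∀ v w : ℝ, HasDerivAt (fun r : ℝ => Φ i (x + r • (v, w)))
        (v * ((d i).1 * pd 0 S (pt (p i) (d i) x.1 x.2) + (d i).2 * pd 1 S (pt (p i) (d i) x.1 x.2))
          - x.2 * (v * ((d i).1 * pd 0 (pd 2 S) (pt (p i) (d i) x.1 x.2) +
            (d i).2 * pd 1 (pd 2 S) (pt (p i) (d i) x.1 x.2)) +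
            w * pd 2 (pd 2 S) (pt (p i) (d i) x.1 x.2)),
          v * ((d i).1 * pd 0 (pd 2 S) (pt (p i) (d i) x.1 x.2) +
            (d i).2 * pd 1 (pd 2 S) (pt (p i) (d i) x.1 x.2)) +
            w * pd 2 (pd 2 S) (pt (p i) (d i) x.1 x.2)) 0 := by
      intro v w
      have c1 := hS.curve (pt_deriv (p i) (d i) x.1 x.2 v w)
      have c2 := hZ.curve (pt_deriv (p i) (d i) x.1 x.2 v w)
      have c3 := ((hasDerivAt_id' (0 : ℝ)).mul_const w).const_add x.2
      refine ((c1.sub (c3.mul c2)).prodMk c2).congr_deriv ?_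
      refine Prod.ext ?_ ?_ <;> simp only [Fin.isValue, Matrix.cons_val_zero, zero_mul, add_zero, Matrix.cons_val_one, Matrix.cons_val, one_mul, add_left_inj] <;> ring
    by_cases hz : pd 2 (pd 2 S) (pt (p i) (d i) x.1 x.2) = 0
    · exact ⟨(0, 1), by simp, (key 0 1).congr_deriv (by simp [hz])⟩
    · have ht := hx.resolve_right hz
      refine ⟨(pd 2 (pd 2 S) (pt (p i) (d i) x.1 x.2), -((d i).1 * pd 0 (pd 2 S) (pt (p i) (d i) x.1 x.2) +
            (d i).2 * pd 1 (pd 2 S) (pt (p i) (d i) x.1 x.2))), by simp only [Fin.isValue, neg_add_rev, ne_eq, Prod.mk_eq_zero, hz, false_and, not_false_eq_true],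
        (key _ _).congr_deriv ?_⟩
      rw [ht]
      refine Prod.ext ?_ ?_ <;> simp only [Prod.fst_zero, Prod.snd_zero] <;> ring
  have h2 : ∀ i, volume (Ψ i '' univ) = 0 := fun i =>
    sard2 _ (by simp only [Ψ]; fun_prop) _ (fun x _ => ⟨(0, 1), by simp, by
      simpa [Ψ] using hasDerivAt_const (0 : ℝ) (S (pt (p i) (d i) 0 (h i)) - x.1 * h i, x.1)⟩)
  set r := δ / (B + 1) with hr
  have hr0 : 0 < r := by positivity
  obtain ⟨⟨a, b⟩, hab, hn'⟩ : ∃ y ∈ Metric.ball (0 : ℝ × ℝ) r,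
      y ∉ ⋃ i, (Φ i '' C i ∪ Ψ i '' univ) := by
    by_contra hc
    push Not at hc
    exact (Metric.measure_ball_pos volume (0 : ℝ × ℝ) hr0).ne' (measure_mono_null hc
      (measure_iUnion_null (fun i => measure_union_null (h1 i) (h2 i))))
  simp only [mem_iUnion, not_exists, mem_union, not_or] at hn'
  have e2 : pd 2 (fun q => S q - a - b * q 2) = fun q => pd 2 S q - b - 0 * q 2 := by
    funext q; rw [pd_pert hS]; simp
  refine ⟨fun q => S q - a - b * q 2, (hS.sub (PD.const _ a)).sub (((PD.coord 2).smul b).mono hn),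
    fun i t z z1 z2 => ?_, fun i e => (hn' i).2 ⟨(b, 0), mem_univ _, ?_⟩, fun q hq => ?_⟩
  · rw [e2, pd_pert hZ, pd_pert hS, pd_pert hS]
    rw [e2] at z2
    by_contra hc
    refine (hn' i).1 ⟨(t, z), ?_, ?_⟩
    · simp only [C, mem_ofPred_eq]
      simp only [Fin.isValue, ne_eq, Fin.reduceEq, not_false_eq_true, Pi.single_eq_of_ne, mul_zero, sub_zero, Pi.single_eq_same, mul_one, not_and, Decidable.not_not] at hc
      tauto
    · simp [pt] at z1 z2
      simp only [Φ, pt, Prod.mk.injEq]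
      have : pd 2 S ![(p i).1 + t * (d i).1, (p i).2 + t * (d i).2, z] = b := by linarith only [z2]
      rw [this]
      exact ⟨by linarith only [z1], rfl⟩
  · simp only [Ψ, Prod.mk.injEq, and_true]
    have : pt (p i) (d i) 0 (h i) 2 = h i := rfl
    simp only [this] at e
    linarith only [e]
  · rw [mem_ball_zero_iff, Prod.norm_def, max_lt_iff, Real.norm_eq_abs, Real.norm_eq_abs] at hab
    have e : S q - a - b * q 2 - S q = -(a + b * q 2) := by ring
    rw [e, abs_neg]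
    have : |b * q 2| ≤ r * B := by
      rw [abs_mul]; exact mul_le_mul hab.2.le hq (abs_nonneg _) hr0.le
    have e3 : r * (B + 1) = δ := by rw [hr]; field_simp
    calc |a + b * q 2| ≤ |a| + |b * q 2| := abs_add_le _ _
      _ < δ := by have := hab.1; simp only at this; linarith

/-- at least `k` zeros of `s` below `h` and above the floor given by `g` -/
def Lev (s g : ℝ → ℝ) (h : ℝ) (k : ℕ) : Prop :=
  ∃ z : Fin k → ℝ, Function.Injective z ∧ ∀ r, z r < h ∧ s (z r) = 0 ∧ ∀ w ∈ Icc (z r) h, 0 < g w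

theorem Lev.up {s g : ℝ → ℝ} {h h' : ℝ} {k : ℕ} (H : Lev s g h k) (hh : h ≤ h')
    (hg : ∀ w ∈ Icc h h', 0 < g w) : Lev s g h' k := by
  obtain ⟨z, h1, h2⟩ := H
  refine ⟨z, h1, fun r => ⟨(h2 r).1.trans_le hh, (h2 r).2.1, fun w hw => ?_⟩⟩
  rcases le_total w h with a | a
  exacts [(h2 r).2.2 w ⟨hw.1, a⟩, hg w ⟨a, hw.2⟩]

theorem Lev.up_succ {s g : ℝ → ℝ} {h h' y : ℝ} {k : ℕ} (H : Lev s g h k) (h1 : h ≤ y) (h2 : y < h')
    (hy : s y = 0) (hg : ∀ w ∈ Icc h h', 0 < g w) : Lev s g h' (k + 1) := by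
  have hz : ∃ z : Fin k → ℝ, (∀ r, z r < h) ∧ Function.Injective z ∧
      ∀ r, z r < h' ∧ s (z r) = 0 ∧ ∀ w ∈ Icc (z r) h', 0 < g w := by
    obtain ⟨z, a1, a2⟩ := H
    refine ⟨z, fun r => (a2 r).1, a1, fun r => ⟨by linarith [(a2 r).1], (a2 r).2.1, fun w hw => ?_⟩⟩
    rcases le_total w h with a | a
    exacts [(a2 r).2.2 w ⟨hw.1, a⟩, hg w ⟨a, hw.2⟩]
  obtain ⟨z, a0, a1, a2⟩ := hz
  refine ⟨Fin.cons y z, Fin.cons_injective_iff.2 ⟨?_, a1⟩, fun r => ?_⟩
  · rintro ⟨r, rfl⟩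
    exact absurd (a0 r) (not_lt.2 h1)
  · refine Fin.cases ?_ (fun r => ?_) r
    · exact ⟨h2, hy, fun w hw => hg w ⟨h1.trans hw.1, hw.2⟩⟩
    · exact a2 r

theorem sign_near {f : ℝ → ℝ} {f' z : ℝ} (hf : HasDerivAt f f' z) (h0 : f z = 0) (hne : f' ≠ 0)
    {U : Set ℝ} (hU : U ∈ 𝓝 z) : ∃ a ∈ U, ∃ b ∈ U, f a < 0 ∧ 0 < f b := by
  have h1 : ∃ a ∈ U, f a < 0 := by
    by_contra hc
    push Not at hc
    exact hne (IsLocalMin.hasDerivAt_eq_zero (by
      filter_upwards [hU] with y hy; rw [h0]; exact hc y hy) hf)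
  have h2 : ∃ a ∈ U, 0 < f a := by
    by_contra hc
    push Not at hc
    exact hne (IsLocalMax.hasDerivAt_eq_zero (by
      filter_upwards [hU] with y hy; rw [h0]; exact hc y hy) hf)
  obtain ⟨a, a1, a2⟩ := h1
  obtain ⟨b, b1, b2⟩ := h2
  exact ⟨a, a1, b, b1, a2, b2⟩

section
variable {s g sz gz : ℝ → ℝ → ℝ} {h : ℝ → ℝ} {B : ℝ}

theorem lev_open (hs : Continuous (fun x : ℝ × ℝ => s x.1 x.2))
    (hg : Continuous (fun x : ℝ × ℝ => g x.1 x.2)) (hh : Continuous h)
    (ds : ∀ t z, HasDerivAt (s t) (sz t z) z) {t : ℝ} {k : ℕ}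
    (hne : ∀ z, z < h t → s t z = 0 → (∀ w ∈ Icc z (h t), 0 < g t w) → sz t z ≠ 0)
    (H : Lev (s t) (g t) (h t) k) : ∀ᶠ t' in 𝓝 t, Lev (s t') (g t') (h t') k := by
  obtain ⟨z, hz, hr⟩ := H
  obtain ⟨δ, hδ, hδ0⟩ : ∃ δ : ℝ, (∀ r r', r ≠ r' → 2 * δ < |z r - z r'|) ∧ 0 < δ := by
    have : ∀ᶠ δ in 𝓝 (0 : ℝ), ∀ r r', r ≠ r' → 2 * δ < |z r - z r'| := by
      refine eventually_all.2 (fun r => eventually_all.2 (fun r' => eventually_all.2 (fun hrr => ?_)))
      exact ContinuousAt.eventually_lt (f := fun δ : ℝ => 2 * δ) (by fun_prop) continuousAt_const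
        (by simpa [sub_eq_zero] using fun e => hrr (hz e))
    exact ((this.filter_mono (nhdsWithin_le_nhds (s := Ioi 0))).and self_mem_nhdsWithin).exists
  have key : ∀ r, ∀ᶠ t' in 𝓝 t, ∃ y, |y - z r| < δ ∧ y < h t' ∧ s t' y = 0 ∧
      ∀ w ∈ Icc y (h t'), 0 < g t' w := by
    intro r
    obtain ⟨r1, r2, r3⟩ := hr r
    have e1 : ∀ᶠ x in 𝓝 (t, z r), ∀ l ∈ Icc (0 : ℝ) 1, 0 < g x.1 (x.2 + l * (h x.1 - x.2)) := by
      apply isCompact_Icc.eventually_forall_of_forall_eventually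
      intro l hl
      have : Continuous (fun y : (ℝ × ℝ) × ℝ => g y.1.1 (y.1.2 + y.2 * (h y.1.1 - y.1.2))) :=
        hg.comp (f := fun y : (ℝ × ℝ) × ℝ => (y.1.1, y.1.2 + y.2 * (h y.1.1 - y.1.2))) (by fun_prop)
      exact continuousAt_const.eventually_lt this.continuousAt
        (r3 _ ⟨by nlinarith only [hl.1, r1], by nlinarith only [hl.2, r1]⟩)
    have e2 : ∀ᶠ x in 𝓝 (t, z r), x.2 < h x.1 :=
      continuousAt_snd.eventually_lt (hh.comp continuous_fst).continuousAt r1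
    obtain ⟨ρ, hρ, hb⟩ := Metric.eventually_nhds_iff.1 (e1.and e2)
    obtain ⟨a, a1, b, b1, a2, b2⟩ := sign_near (ds t (z r)) r2 (hne _ r1 r2 r3)
      (Metric.ball_mem_nhds (z r) (lt_min hρ hδ0))
    have ca : Continuous (fun t' => s t' a) := hs.comp (f := fun t' : ℝ => (t', a)) (by fun_prop)
    have cb : Continuous (fun t' => s t' b) := hs.comp (f := fun t' : ℝ => (t', b)) (by fun_prop)
    filter_upwards [ca.continuousAt.eventually_lt continuousAt_const a2,
      continuousAt_const.eventually_lt cb.continuousAt b2, Metric.ball_mem_nhds t hρ] with t' f1 f2 f3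
    obtain ⟨y, y1, y2⟩ := (convex_ball (z r) (min ρ δ)).isPreconnected.intermediate_value a1 b1
      (f := s t') (hs.comp (f := fun y : ℝ => (t', y)) (by fun_prop)).continuousOn ⟨f1.le, f2.le⟩
    rw [Metric.mem_ball, lt_min_iff] at y1
    have := @hb (t', y) (by rw [Prod.dist_eq]; exact max_lt f3 y1.1)
    refine ⟨y, y1.2, this.2, y2, fun w hw => ?_⟩
    have hp : 0 < h t' - y := sub_pos.2 this.2
    have := this.1 ((w - y) / (h t' - y)) ⟨div_nonneg (by linarith [hw.1]) hp.le,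
      (div_le_one hp).2 (by linarith [hw.2])⟩
    simpa [div_mul_cancel₀ _ hp.ne'] using this
  filter_upwards [eventually_all.2 key] with t' ht'
  choose y y1 y2 using ht'
  refine ⟨y, fun r r' e => ?_, y2⟩
  by_contra hrr
  have a := hδ r r' hrr
  have b := abs_lt.1 (y1 r)
  have c := abs_lt.1 (y1 r')
  rw [e] at b
  rcases lt_abs.1 a with a | a <;> linarith

theorem lev_closed (hs : Continuous (fun x : ℝ × ℝ => s x.1 x.2))
    (hg : Continuous (fun x : ℝ × ℝ => g x.1 x.2)) (hsz : Continuous (fun x : ℝ × ℝ => sz x.1 x.2))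
    (hh : Continuous h) (ds : ∀ t z, HasDerivAt (s t) (sz t z) z)
    (dg : ∀ t z, HasDerivAt (g t) (gz t z) z) (hB : ∀ t, g t (-B) < 0) {t : ℝ} {k : ℕ}
    (h0 : -B < h t) (h1 : s t (h t) ≠ 0) (h2 : 0 < g t (h t))
    (hne : ∀ z ∈ Icc (-B) (h t), (∀ w ∈ Icc z (h t), 0 ≤ g t w) →
      ¬ (s t z = 0 ∧ sz t z = 0) ∧ ¬ (g t z = 0 ∧ gz t z = 0) ∧ ¬ (s t z = 0 ∧ g t z = 0))
    (H : ∃ᶠ t' in 𝓝 t, Lev (s t') (g t') (h t') k) : Lev (s t) (g t) (h t) k := by
  have ev : ∀ᶠ t' in 𝓝 t, -B < h t' ∧ h t' < h t + 1 :=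
    (continuousAt_const.eventually_lt hh.continuousAt h0).and
      (hh.continuousAt.eventually_lt continuousAt_const (lt_add_one _))
  obtain ⟨u, hu, hu'⟩ := exists_seq_forall_of_frequently (H.and_eventually ev)
  choose z z1 z2 using fun n => (hu' n).1
  have zB : ∀ n r, z n r ∈ Icc (-B) (h t + 1) := fun n r => by
    refine ⟨not_lt.1 (fun a => ?_), ((z2 n r).1.trans (hu' n).2.2).le⟩
    exact lt_asymm (hB _) ((z2 n r).2.2 _ ⟨a.le, (hu' n).2.1.le⟩)
  obtain ⟨y, hy, φ, hφ, hl⟩ := (isCompact_univ_pi (fun _ : Fin k => isCompact_Icc)).tendsto_subseq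
    (x := z) (fun n r _ => zB n r)
  have hv := hu.comp hφ.tendsto_atTop
  have hl' : ∀ r, Tendsto (fun n => z (φ n) r) atTop (𝓝 (y r)) := fun r => tendsto_pi_nhds.1 hl r
  have hhv := (hh.tendsto t).comp hv
  have lim : ∀ {f : ℝ → ℝ → ℝ}, Continuous (fun x : ℝ × ℝ => f x.1 x.2) → ∀ {c : ℕ → ℝ} {w : ℝ},
      Tendsto c atTop (𝓝 w) → Tendsto (fun n => f (u (φ n)) (c n)) atTop (𝓝 (f t w)) :=
    fun hf _ w hc => (hf.tendsto (t, w)).comp (hv.prodMk_nhds hc)
  have y0 : ∀ r, s t (y r) = 0 := fun r =>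
    tendsto_nhds_unique (lim hs (hl' r)) (by simp [(z2 _ r).2.1])
  have y1 : ∀ r, y r ≤ h t := fun r => le_of_tendsto_of_tendsto' (hl' r) hhv (fun n => (z2 _ r).1.le)
  have y2 : ∀ r, ∀ w ∈ Icc (y r) (h t), 0 ≤ g t w := fun r w hw => by
    have := lim hg ((tendsto_const_nhds (x := w).max (hl' r)).min hhv)
    rw [max_eq_left hw.1, min_eq_left hw.2] at this
    exact ge_of_tendsto' this (fun n => ((z2 _ r).2.2 _
      ⟨le_min (le_max_right _ _) (z2 _ r).1.le, min_le_right _ _⟩).le)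
  have y3 : ∀ r, -B ≤ y r := fun r => (hy r (mem_univ _)).1
  refine ⟨y, fun r r' e => ?_, fun r => ⟨lt_of_le_of_ne (y1 r) (fun e => h1 (e ▸ y0 r)), y0 r,
    fun w hw => lt_of_le_of_ne (y2 r w hw) (fun e => ?_)⟩⟩
  · by_contra hrr
    have : ∀ n, ∃ c ∈ Ioo (min (z n r) (z n r')) (max (z n r) (z n r')), sz (u n) c = 0 := fun n => by
      refine exists_hasDerivAt_eq_zero (f := s (u n)) (min_lt_max.2 (fun e => hrr (z1 n e)))
        (fun x _ => (ds _ x).continuousAt.continuousWithinAt) ?_ (fun x _ => ds _ x)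
      rcases le_total (z n r) (z n r') with a | a <;> simp [a, (z2 n _).2.1]
    choose c c1 c2 using this
    have hc : Tendsto (fun n => c (φ n)) atTop (𝓝 (y r)) := by
      refine tendsto_of_tendsto_of_tendsto_of_le_of_le (by simpa only [e, min_self] using (hl' r).min (hl' r'))
        (by simpa only [e, max_self] using (hl' r).max (hl' r')) (fun n => (c1 _).1.le) (fun n => (c1 _).2.le)
    exact (hne _ ⟨y3 r, y1 r⟩ (y2 r)).1 ⟨y0 r, tendsto_nhds_unique (lim hsz hc) (by simp [c2])⟩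
  · have a1 : y r < w := lt_of_le_of_ne hw.1 (fun a =>
      (hne _ ⟨y3 r, y1 r⟩ (y2 r)).2.2 ⟨y0 r, by rw [a, ← e]⟩)
    have a2 : w < h t := lt_of_le_of_ne hw.2 (fun a => by rw [a] at e; linarith)
    refine (hne w ⟨(y3 r).trans hw.1, hw.2⟩ (fun v hv => y2 r v ⟨hw.1.trans hv.1, hv.2⟩)).2.1
      ⟨e.symm, IsLocalMin.hasDerivAt_eq_zero ?_ (dg t w)⟩
    filter_upwards [Icc_mem_nhds a1 a2] with v hv
    rw [← e]; exact y2 r v hv

theorem lev_edge (hs : Continuous (fun x : ℝ × ℝ => s x.1 x.2))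
    (hg : Continuous (fun x : ℝ × ℝ => g x.1 x.2)) (hsz : Continuous (fun x : ℝ × ℝ => sz x.1 x.2))
    (hh : Continuous h) (ds : ∀ t z, HasDerivAt (s t) (sz t z) z)
    (dg : ∀ t z, HasDerivAt (g t) (gz t z) z) (hB : ∀ t, g t (-B) < 0) {a b : ℝ} {k : ℕ}
    (h0 : ∀ t ∈ uIcc a b, -B < h t ∧ s t (h t) ≠ 0 ∧ 0 < g t (h t) ∧
      ∀ z ∈ Icc (-B) (h t), (∀ w ∈ Icc z (h t), 0 ≤ g t w) →
      ¬ (s t z = 0 ∧ sz t z = 0) ∧ ¬ (g t z = 0 ∧ gz t z = 0) ∧ ¬ (s t z = 0 ∧ g t z = 0))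
    (H : Lev (s a) (g a) (h a) k) : Lev (s b) (g b) (h b) k := by
  have op : ∀ t ∈ uIcc a b, Lev (s t) (g t) (h t) k →
      t ∈ interior {t | Lev (s t) (g t) (h t) k} := fun t ht H => by
    refine mem_interior_iff_mem_nhds.2 (lev_open hs hg hh ds (fun z z1 z2 z3 z4 => ?_) H)
    refine ((h0 t ht).2.2.2 z ⟨not_lt.1 (fun a => ?_), z1.le⟩ (fun w hw => (z3 w hw).le)).1 ⟨z2, z4⟩
    exact lt_asymm (hB _) (z3 _ ⟨a.le, (h0 t ht).1.le⟩)
  refine interior_subset (s := {t | Lev (s t) (g t) (h t) k})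
    (isPreconnected_uIcc.subset_of_closure_inter_subset isOpen_interior
      ⟨a, left_mem_uIcc, op a left_mem_uIcc H⟩ (fun t ht => op t ht.2 ?_) right_mem_uIcc)
  obtain ⟨a1, a2, a3, a4⟩ := h0 t ht.2
  exact lev_closed hs hg hsz hh ds dg hB a1 a2 a3 a4
    (mem_closure_iff_frequently.1 (closure_mono interior_subset ht.1))

end

end Pool.Agent.MP_800a79_co.H62

end

-- part MP_800a79_co.H62.Cyc
section

/-! Depth cycles; a cycle met by a surface produces an event over one of its edges. -/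

set_option autoImplicit false

namespace Pool.Agent.MP_800a79_co.H62

open Filter Topology Set

/-- a depth cycle: run along line `i r` from `s r` to `t r`, jump up to line `i (r+1)` -/
structure Cyc {ι : Type*} (p d : ι → ℝ × ℝ) (h e : ι → ℝ) where
  k : ℕ
  hk : 0 < k
  i : ℕ → ι
  s : ℕ → ℝ
  t : ℕ → ℝ
  pi : i k = i 0
  ps : s k = s 0
  link : ∀ r, p (i r) + t r • d (i r) = p (i (r + 1)) + s (r + 1) • d (i (r + 1))
  up : ∀ r, h (i r) + t r * e (i r) < h (i (r + 1)) + s (r + 1) * e (i (r + 1))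

variable {ι : Type*} {p d : ι → ℝ × ℝ} {h e : ι → ℝ}

/-- the point of line `i` with parameter `t` -/
def lp (p d : ι → ℝ × ℝ) (h e : ι → ℝ) (i : ι) (t : ℝ) : V := pt (p i) (d i) t (h i + t * e i)

theorem lp_eq (i : ι) (t : ℝ) :
    lp p d h e i t = pt (p i) (d i) 0 (h i) + t • ![(d i).1, (d i).2, e i] := by
  funext k; fin_cases k <;> simp [lp, pt]

theorem lp_cont (i : ι) : Continuous (lp p d h e i) :=
  (pt_cont (p i) (d i)).comp (f := fun t : ℝ => (t, h i + t * e i)) (by fun_prop)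

theorem pt_cont2 (a b : ℝ × ℝ) (t : ℝ) : Continuous (pt a b t) :=
  (pt_cont a b).comp (f := fun z : ℝ => (t, z)) (by fun_prop)

namespace Cyc
variable (c : Cyc p d h e)

def piece (r : ℕ) : Set V := lp p d h e (c.i r) '' uIcc (c.s r) (c.t r) ∪
  pt (p (c.i r)) (d (c.i r)) (c.t r) '' Icc (h (c.i r) + c.t r * e (c.i r))
    (h (c.i (r + 1)) + c.s (r + 1) * e (c.i (r + 1)))

def car : Set V := ⋃ r ∈ Iio c.k, c.piece r

def shadow : Set (ℝ × ℝ) := {x | ∃ r < c.k, ∃ t ∈ uIcc (c.s r) (c.t r), x = p (c.i r) + t • d (c.i r)}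

def base : V := lp p d h e (c.i 0) (c.s 0)

theorem link' (r : ℕ) : pt (p (c.i r)) (d (c.i r)) (c.t r) =
    pt (p (c.i (r + 1))) (d (c.i (r + 1))) (c.s (r + 1)) := by
  funext z
  have h1 := congrArg Prod.fst (c.link r)
  have h2 := congrArg Prod.snd (c.link r)
  simp only [Prod.fst_add, Prod.snd_add, Prod.smul_fst, Prod.smul_snd, smul_eq_mul] at h1 h2
  simp only [pt, h1, h2]

theorem edge_mem {r : ℕ} (hr : r < c.k) {t : ℝ} (ht : t ∈ uIcc (c.s r) (c.t r)) :
    lp p d h e (c.i r) t ∈ c.car := mem_biUnion hr (Or.inl ⟨t, ht, rfl⟩)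

theorem jump_mem {r : ℕ} (hr : r < c.k) {z : ℝ} (hz : z ∈ Icc (h (c.i r) + c.t r * e (c.i r))
    (h (c.i (r + 1)) + c.s (r + 1) * e (c.i (r + 1)))) :
    pt (p (c.i r)) (d (c.i r)) (c.t r) z ∈ c.car := mem_biUnion hr (Or.inr ⟨z, hz, rfl⟩)

theorem base_mem : c.base ∈ c.car := c.edge_mem c.hk left_mem_uIcc

theorem car_compact : IsCompact c.car :=
  (finite_Iio _).isCompact_biUnion (fun _ _ => (isCompact_uIcc.image (lp_cont _)).union
    (isCompact_Icc.image (pt_cont2 _ _ _)))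

theorem car_conn : IsPreconnected c.car := by
  refine IsPreconnected.biUnion_of_chain ordConnected_Iio (fun r _ => ?_) (fun r _ _ => ?_)
  · exact IsPreconnected.union (lp p d h e (c.i r) (c.t r)) ⟨_, right_mem_uIcc, rfl⟩
      ⟨_, ⟨le_rfl, (c.up r).le⟩, rfl⟩ (isPreconnected_uIcc.image _ (lp_cont _).continuousOn)
      (isPreconnected_Icc.image _ (pt_cont2 _ _ _).continuousOn)
  · exact ⟨lp p d h e (c.i (r + 1)) (c.s (r + 1)),
      Or.inr ⟨_, ⟨(c.up r).le, le_rfl⟩, by rw [c.link' r]; rfl⟩, Or.inl ⟨_, left_mem_uIcc, rfl⟩⟩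

theorem event {n : ℕ} {S G : V → ℝ} (hS : PD n S) (hG : PD n G) {B : ℝ}
    (hB : ∀ i t, G (pt (p i) (d i) t (-B)) < 0) (hγ : ∀ y ∈ c.car, 0 < G y ∧ -B < y 2)
    (h0 : ∃ y ∈ c.car, S y = 0)
    (hSG : ∀ r < c.k, ∀ t ∈ uIcc (c.s r) (c.t r), ∀ z ∈ Icc (-B) (h (c.i r) + t * e (c.i r)),
      ¬ (S (pt (p (c.i r)) (d (c.i r)) t z) = 0 ∧ G (pt (p (c.i r)) (d (c.i r)) t z) = 0)) :
    ∃ r < c.k, ∃ t ∈ uIcc (c.s r) (c.t r), S (lp p d h e (c.i r) t) = 0 ∨
      ∃ z ∈ Icc (-B) (h (c.i r) + t * e (c.i r)),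
        (∀ w ∈ Icc z (h (c.i r) + t * e (c.i r)), 0 ≤ G (pt (p (c.i r)) (d (c.i r)) t w)) ∧
        ((S (pt (p (c.i r)) (d (c.i r)) t z) = 0 ∧ pd 2 S (pt (p (c.i r)) (d (c.i r)) t z) = 0) ∨
         (G (pt (p (c.i r)) (d (c.i r)) t z) = 0 ∧ pd 2 G (pt (p (c.i r)) (d (c.i r)) t z) = 0)) := by
  by_contra hc
  simp only [not_exists, not_and, not_or] at hc
  let L : ι → ℝ → ℕ → Prop := fun i t m =>
    Lev (fun z => S (pt (p i) (d i) t z)) (fun z => G (pt (p i) (d i) t z)) (h i + t * e i) m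
  have hedge : ∀ r < c.k, ∀ m, L (c.i r) (c.s r) m → L (c.i r) (c.t r) m := by
    intro r hr m
    refine lev_edge (s := fun t z => S (pt (p (c.i r)) (d (c.i r)) t z))
      (g := fun t z => G (pt (p (c.i r)) (d (c.i r)) t z))
      (sz := fun t z => pd 2 S (pt (p (c.i r)) (d (c.i r)) t z))
      (gz := fun t z => pd 2 G (pt (p (c.i r)) (d (c.i r)) t z))
      (h := fun t => h (c.i r) + t * e (c.i r)) (hS.continuous.comp (pt_cont _ _))
      (hG.continuous.comp (pt_cont _ _)) ((hS.pd 2).continuous.comp (pt_cont _ _)) (by fun_prop)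
      (fun t z => vert_deriv hS _ _ t z) (fun t z => vert_deriv hG _ _ t z) (hB _) (fun t ht => ?_)
    have a := hγ _ (c.edge_mem hr ht)
    refine ⟨a.2, (hc r hr t ht).1, a.1, fun z hz hw => ?_⟩
    have b := (hc r hr t ht).2 z hz hw
    exact ⟨fun x => b.1 x.1 x.2, fun x => b.2 x.1 x.2, hSG r hr t ht z hz⟩
  have hj : ∀ r < c.k, ∀ w ∈ Icc (h (c.i r) + c.t r * e (c.i r))
      (h (c.i (r + 1)) + c.s (r + 1) * e (c.i (r + 1))),
      0 < G (pt (p (c.i r)) (d (c.i r)) (c.t r) w) := fun r hr w hw => (hγ _ (c.jump_mem hr hw)).1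
  have hstep : ∀ r < c.k, ∀ m, L (c.i r) (c.s r) m → L (c.i (r + 1)) (c.s (r + 1)) m := by
    intro r hr m H
    have := (hedge r hr m H).up (c.up r).le (hj r hr)
    simp only [L, ← c.link' r]
    exact this
  have hst : ∀ r ≤ c.k, S (lp p d h e (c.i r) (c.s r)) ≠ 0 := by
    intro r hr
    rcases hr.lt_or_eq with hr | rfl
    · exact (hc r hr _ left_mem_uIcc).1
    · rw [c.pi, c.ps]; exact (hc 0 c.hk _ left_mem_uIcc).1
  obtain ⟨r0, hr0, hs0⟩ : ∃ r < c.k, ∀ m, L (c.i r) (c.s r) m →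
      L (c.i (r + 1)) (c.s (r + 1)) (m + 1) := by
    obtain ⟨y, hy, hy0⟩ := h0
    obtain ⟨r, hr, hy⟩ := mem_iUnion₂.1 hy
    rcases hy with ⟨t, ht, rfl⟩ | ⟨z, hz, rfl⟩
    · exact absurd hy0 (hc r hr t ht).1
    refine ⟨r, hr, fun m H => ?_⟩
    have := (hedge r hr m H).up_succ hz.1 (lt_of_le_of_ne hz.2 (fun a =>
      hst (r + 1) hr (by rw [a, c.link' r] at hy0; exact hy0))) hy0 (hj r hr)
    simp only [L, ← c.link' r]
    exact this
  have hrun : ∀ a b m, a ≤ b → b ≤ c.k → L (c.i a) (c.s a) m → L (c.i b) (c.s b) m := by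
    intro a b m hab
    induction hab with
    | refl => exact fun _ H => H
    | step _ ih => exact fun hb H => hstep _ hb m (ih (Nat.le_of_succ_le hb) H)
  have hall : ∀ m, L (c.i 0) (c.s 0) m := by
    intro m
    induction m with
    | zero => exact ⟨Fin.elim0, fun a => a.elim0, fun a => a.elim0⟩
    | succ m ih =>
      have := hrun _ _ _ hr0 le_rfl (hs0 m (hrun _ _ _ (Nat.zero_le _) hr0.le ih))
      rwa [c.pi, c.ps] at this
  have e1 : ∀ z : ℝ, pt (p (c.i 0)) (d (c.i 0)) (c.s 0) 0 + z • ![0, 0, 1] =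
      pt (p (c.i 0)) (d (c.i 0)) (c.s 0) z := fun z => by
    funext k; fin_cases k <;> simp [pt]
  obtain ⟨T, hT, hr⟩ := hS.roots (pt (p (c.i 0)) (d (c.i 0)) (c.s 0) 0) ![0, 0, 1] _
    (by rw [e1]; exact hst 0 (Nat.zero_le _))
  obtain ⟨z, z1, z2⟩ := hall (n + 1)
  have := Finset.card_le_card_of_injOn (s := Finset.univ) (t := T) z
    (fun r _ => hr _ (by rw [e1]; exact (z2 r).2.1)) z1.injOn
  simp at this
  omega

end Cyc

end Pool.Agent.MP_800a79_co.H62

end

-- part MP_800a79_co.H62.Level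
section

/-! The count of cycles that survive one partition and are cut by the next one. -/

set_option autoImplicit false

namespace Pool.Agent.MP_800a79_co.H62

open Filter Topology Set Classical

variable {ι α : Type*} [Fintype ι] [Fintype α] {p d : ι → ℝ × ℝ} {h e : ι → ℝ}

/-- every point of the plane lies under at most four cycles -/
def Mult (c : α → Cyc p d h e) : Prop :=
  ∀ x, (Finset.univ.filter (fun a => x ∈ (c a).shadow)).card ≤ 4

omit [Fintype ι] in
theorem charge {c : α → Cyc p d h e} (hm : Mult c) (A : Finset α) {β : Type*} (R : β → Prop)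
    (π : β → ℝ × ℝ) (H : ∀ a ∈ A, ∃ x, R x ∧ π x ∈ (c a).shadow) :
    ∃ X : Finset β, (∀ x ∈ X, R x) ∧ A.card ≤ 4 * X.card := by
  choose ev h1 h2 using H
  refine ⟨A.attach.image (fun a => ev a.1 a.2), fun x hx => ?_, ?_⟩
  · obtain ⟨a, -, rfl⟩ := Finset.mem_image.1 hx
    exact h1 _ _
  · set X := A.attach.image (fun a => ev a.1 a.2)
    calc A.card ≤ (X.biUnion (fun x => Finset.univ.filter (fun a => π x ∈ (c a).shadow))).card :=
          Finset.card_le_card (fun a ha => Finset.mem_biUnion.2 ⟨ev a ha,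
            Finset.mem_image.2 ⟨⟨a, ha⟩, Finset.mem_attach _ _, rfl⟩, by simpa only [Finset.mem_filter, Finset.mem_univ, true_and] using h2 a ha⟩)
      _ ≤ ∑ x ∈ X, 4 := Finset.card_biUnion_le.trans (Finset.sum_le_sum (fun x _ => hm _))
      _ = 4 * X.card := by simp [mul_comm]

omit [Fintype ι] in
/-- pairs (line, parameter) with few parameters for each line -/
theorem pair_count (X : Finset (ι × ℝ)) (I : Finset ι) (n : ℕ)
    (H : ∀ i ∈ I, ∃ T : Finset ℝ, T.card ≤ n ∧ ∀ t, (i, t) ∈ X → t ∈ T) (hI : ∀ x ∈ X, x.1 ∈ I) :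
    X.card ≤ I.card * n := by
  choose! T h1 h2 using H
  calc X.card ≤ (I.biUnion (fun i => (T i).image (fun t => (i, t)))).card :=
        Finset.card_le_card (fun x hx => Finset.mem_biUnion.2 ⟨x.1, hI x hx,
          Finset.mem_image.2 ⟨x.2, h2 _ (hI x hx) _ hx, rfl⟩⟩)
    _ ≤ ∑ i ∈ I, n := Finset.card_biUnion_le.trans
        (Finset.sum_le_sum (fun i hi => Finset.card_image_le.trans (h1 i hi)))
    _ = _ := by simp

/-- the lines that meet a cell -/
noncomputable def LL (p d : ι → ℝ × ℝ) (h e : ι → ℝ) (Q : V → ℝ) (κ : Set V) : Finset ι :=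
  Finset.univ.filter (fun i => ∃ t, Q (lp p d h e i t) ≠ 0 ∧ cell Q (lp p d h e i t) = κ)

theorem heavy {D : ℕ} {Q : V → ℝ} (hQ : PD D Q) (c : α → Cyc p d h e) {θ N : ℝ} (hθ : 0 < θ)
    (hN0 : 0 ≤ N)
    (hN : ∀ y, ((Finset.univ.filter (fun a => (c a).base ∈ cell Q y)).card : ℝ) ≤ N)
    (A : Finset α) (hA : ∀ a ∈ A, Q (c a).base ≠ 0 ∧ θ < (LL p d h e Q (cell Q (c a).base)).card) :
    (A.card : ℝ) ≤ Fintype.card ι * (D + 1) * N / θ := by
  let H : Finset (Set V) := A.image (fun a => cell Q (c a).base)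
  choose K K1 K2 using fun i => line_cells hQ (pt (p i) (d i) 0 (h i)) ![(d i).1, (d i).2, e i]
  have h1 : ∑ κ ∈ H, (LL p d h e Q κ).card ≤ Fintype.card ι * (D + 1) := by
    simp only [LL, Finset.card_filter]
    rw [Finset.sum_comm]
    calc _ ≤ ∑ _i : ι, (D + 1) := Finset.sum_le_sum (fun i _ => ?_)
      _ = _ := by simp only [Finset.sum_const, Finset.card_univ, smul_eq_mul]
    rw [← Finset.card_filter]
    refine (Finset.card_le_card (fun κ hκ => ?_)).trans (K1 i)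
    obtain ⟨t, h1, h2⟩ := (Finset.mem_filter.1 hκ).2
    rw [← h2, lp_eq]
    exact K2 i t (by rwa [← lp_eq])
  have h2 : θ * H.card ≤ Fintype.card ι * (D + 1) := by
    calc θ * H.card = ∑ _κ ∈ H, θ := by simp [mul_comm]
      _ ≤ ∑ κ ∈ H, ((LL p d h e Q κ).card : ℝ) := Finset.sum_le_sum (fun κ hκ => by
          obtain ⟨a, ha, rfl⟩ := Finset.mem_image.1 hκ
          exact (hA a ha).2.le)
      _ ≤ _ := by exact_mod_cast h1
  have h3 : (A.card : ℝ) ≤ H.card * N := by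
    have : A.card ≤ ∑ κ ∈ H, (Finset.univ.filter (fun a => (c a).base ∈ κ)).card := by
      refine le_trans (Finset.card_le_card (fun a ha => ?_)) Finset.card_biUnion_le
      exact Finset.mem_biUnion.2 ⟨_, Finset.mem_image_of_mem _ ha,
        Finset.mem_filter.2 ⟨Finset.mem_univ _, mem_connectedComponentIn (hA a ha).1⟩⟩
    calc (A.card : ℝ) ≤ ∑ κ ∈ H, ((Finset.univ.filter (fun a => (c a).base ∈ κ)).card : ℝ) := by
          exact_mod_cast this
      _ ≤ ∑ _κ ∈ H, N := Finset.sum_le_sum (fun κ hκ => by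
          obtain ⟨a, -, rfl⟩ := Finset.mem_image.1 hκ
          exact hN _)
      _ = _ := by simp
  rw [le_div_iff₀ hθ]
  linarith only [mul_le_mul_of_nonneg_right h2 hN0, mul_le_mul_of_nonneg_right h3 hθ.le]

/-- a fold under a line, inside a light cell met by the line -/
def FoldEv (p d : ι → ℝ × ℝ) (h e : ι → ℝ) (S Q : V → ℝ) (θ : ℝ) (x : ι × V) : Prop :=
  (∃ t z, x.2 = pt (p x.1) (d x.1) t z) ∧ S x.2 = 0 ∧ pd 2 S x.2 = 0 ∧ Q x.2 ≠ 0 ∧
    x.1 ∈ LL p d h e Q (cell Q x.2) ∧ ((LL p d h e Q (cell Q x.2)).card : ℝ) ≤ θ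

theorem fold_bound {D : ℕ} (hD : 1 ≤ D) {S Q : V → ℝ} (hS : PD D S) (hQ : PD D Q) (hg : Gen p d S)
    {θ : ℝ} (hθ : 0 ≤ θ) (X : Finset (ι × V)) (hX : ∀ x ∈ X, FoldEv p d h e S Q θ x) :
    (X.card : ℝ) ≤ 2 * θ * (64 * (18 * D) ^ 3) := by
  refine fold_count hD hS hQ (fun i => (d i).1) (fun i => (d i).2)
    (fun i => (d i).1 * (p i).2 - (d i).2 * (p i).1) X θ hθ (fun x hx => ?_) (fun y => ?_)
  · obtain ⟨⟨t, z, e1⟩, h1, h2, h3, -⟩ := hX x hx
    have := hg x.1 t z (e1 ▸ h1) (e1 ▸ h2)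
    rw [← e1] at this
    refine ⟨?_, h1, h2, this.1, this.2, h3⟩
    rw [e1]; simp [pt]; ring
  · rcases (X.filter (fun x => cell Q x.2 = cell Q y)).eq_empty_or_nonempty with h0 | ⟨x, hx⟩
    · simp [h0, hθ]
    obtain ⟨hx1, hx2⟩ := Finset.mem_filter.1 hx
    refine le_trans (Nat.cast_le.2 (Finset.card_le_card (fun i hi => ?_))) (hX x hx1).2.2.2.2.2
    obtain ⟨w, hw, rfl⟩ := Finset.mem_image.1 hi
    obtain ⟨hw1, hw2⟩ := Finset.mem_filter.1 hw
    rw [hx2, ← hw2]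
    exact (hX w hw1).2.2.2.2.1

theorem small {β : Type*} (A : Finset β) (R : β → ℝ → Prop)
    (hR : ∀ a ∈ A, ∃ η, 0 < η ∧ ∀ ε, ε ≤ η → R a ε) {η0 : ℝ} (h0 : 0 < η0) :
    ∃ ε, 0 < ε ∧ ε ≤ η0 ∧ ∀ a ∈ A, R a ε := by
  have : ∃ η, 0 < η ∧ η ≤ η0 ∧ ∀ ε, ε ≤ η → ∀ a ∈ A, R a ε := by
    induction A using Finset.induction_on with
    | empty => exact ⟨η0, h0, le_rfl, by simp⟩
    | insert a s _ ih =>
      obtain ⟨η, h1, h2, h3⟩ := ih (fun b hb => hR b (Finset.mem_insert_of_mem hb))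
      obtain ⟨η', h4, h5⟩ := hR a (Finset.mem_insert_self _ _)
      refine ⟨min η η', lt_min h1 h4, (min_le_left _ _).trans h2, fun ε hε b hb => ?_⟩
      rcases Finset.mem_insert.1 hb with rfl | hb
      · exact h5 ε (hε.trans (min_le_right _ _))
      · exact h3 ε (hε.trans (min_le_left _ _)) b hb
  obtain ⟨η, h1, h2, h3⟩ := this
  exact ⟨η, h1, h2, h3 η le_rfl⟩

theorem light {D : ℕ} (hD : 1 ≤ D) {Q P : V → ℝ} (hQ : PD D Q) (hP : PD D P)
    {c : α → Cyc p d h e} (hm : Mult c) {θ : ℝ} (hθ : 0 ≤ θ) (A : Finset α)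
    (hA : ∀ a ∈ A, (∀ y ∈ (c a).car, Q y ≠ 0) ∧ (∃ y ∈ (c a).car, P y = 0) ∧
      (∃ y ∈ (c a).car, P y ≠ 0) ∧ ((LL p d h e Q (cell Q (c a).base)).card : ℝ) ≤ θ) :
    (A.card : ℝ) ≤ 20 * Fintype.card ι * D + 10 ^ 9 * θ * D ^ 3 := by
  obtain ⟨r, hr⟩ := (Bornology.isBounded_iUnion.2
    (fun a => (c a).car_compact.isBounded)).subset_ball (0 : V)
  obtain ⟨B, hB0, hB⟩ : ∃ B : ℝ, 0 ≤ B ∧ ∀ a, ∀ y ∈ (c a).car, ∀ k, |y k| < B := by
    refine ⟨|r|, abs_nonneg _, fun a y hy k => ?_⟩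
    have := hr (mem_iUnion.2 ⟨a, hy⟩)
    rw [mem_ball_zero_iff] at this
    exact ((norm_le_pi_norm y k).trans_lt this).trans_le (le_abs_self r)
  obtain ⟨M, hM⟩ := (isCompact_closedBall (0 : V) B).exists_bound_of_continuousOn
    (f := fun y => P y ^ 2) (hP.continuous.pow 2).continuousOn
  have hM0 : 0 ≤ M := (norm_nonneg _).trans (hM 0 (Metric.mem_closedBall_self hB0))
  let T : V → ℝ := fun y => Q y ^ 2 * (y 2 + B)
  have hT : PD (2 * D + 1) T := (hQ.pow 2).mul ((PD.coord 2).add (PD.const 1 B))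
  have hTp : ∀ a ∈ A, ∀ y ∈ (c a).car, 0 < T y := fun a ha y hy =>
    mul_pos (sq_pos_of_ne_zero ((hA a ha).1 y hy)) (by linarith only [(abs_lt.1 (hB a y hy 2)).1])
  obtain ⟨ε, hε, -, hε1⟩ := small A (fun a ε => ∃ y ∈ (c a).car, 2 * ε < T y * P y ^ 2)
    (fun a ha => by
      obtain ⟨y, hy, h0⟩ := (hA a ha).2.2.1
      have := mul_pos (hTp a ha y hy) (sq_pos_of_ne_zero h0)
      exact ⟨T y * P y ^ 2 / 4, by positivity, fun ε hε => ⟨y, hy, by linarith only [this, hε]⟩⟩) one_pos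
  obtain ⟨ε', hε', hε2, hε3⟩ := small A (fun a ε => ∀ y ∈ (c a).car, 2 * ε < T y)
    (fun a ha => by
      obtain ⟨u, hu, h0⟩ := (c a).car_compact.exists_forall_le' hT.continuous.continuousOn (hTp a ha)
      exact ⟨u / 4, by positivity, fun ε hε y hy => by linarith only [h0 y hy, hu, hε]⟩)
    (η0 := ε / (4 * (M + 1))) (by positivity)
  rw [le_div_iff₀ (by positivity)] at hε2
  obtain ⟨S, hS, gS, lS, aS⟩ := perturb (n := 5 * D) (by omega)
    (((hT.mul (hP.pow 2)).mono (by omega)).sub (PD.const _ ε)) p d h (half_pos hε) hB0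
  obtain ⟨G, hG, gG, -, aG⟩ := perturb (n := 5 * D) (by omega)
    ((hT.mono (by omega)).sub (PD.const _ ε')) p d h (half_pos hε') hB0
  have hQ5 : PD (5 * D) Q := hQ.mono (by omega)
  have key : ∀ a ∈ A, (∃ x : ι × ℝ, S (lp p d h e x.1 x.2) = 0 ∧ p x.1 + x.2 • d x.1 ∈ (c a).shadow) ∨
      (∃ x, FoldEv p d h e S Q θ x ∧ (x.2 0, x.2 1) ∈ (c a).shadow) ∨
      (∃ x, FoldEv p d h e G Q θ x ∧ (x.2 0, x.2 1) ∈ (c a).shadow) := by
    intro a ha
    have hcur : ∀ r < (c a).k, ∀ t ∈ uIcc ((c a).s r) ((c a).t r),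
        ∀ z ∈ Icc (-B) (h ((c a).i r) + t * e ((c a).i r)), ∀ k,
          |pt (p ((c a).i r)) (d ((c a).i r)) t z k| ≤ B := by
      intro r hr t ht z hz k
      have := fun k => hB a _ ((c a).edge_mem hr ht) k
      fin_cases k
      · exact (this 0).le
      · exact (this 1).le
      · exact abs_le.2 ⟨hz.1, hz.2.trans (abs_lt.1 (this 2)).2.le⟩
    obtain ⟨r, hr, t, ht, H⟩ := (c a).event hS hG (B := B) (fun i t => by
        have := (abs_lt.1 (aG (pt (p i) (d i) t (-B)) (by simp [pt, abs_of_nonneg hB0]))).2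
        have e1 : T (pt (p i) (d i) t (-B)) = 0 := by simp [T, pt]
        linarith only [hε', this, e1])
      (fun y hy => ⟨by linarith [(abs_lt.1 (aG y (hB a y hy 2).le)).1, hε3 a ha y hy],
        (abs_lt.1 (hB a y hy 2)).1⟩)
      (by
        obtain ⟨y, hy, h1⟩ := (hA a ha).2.1
        obtain ⟨y', hy', h2⟩ := hε1 a ha
        have a1 := (abs_lt.1 (aS y (hB a y hy 2).le)).2
        have a2 := (abs_lt.1 (aS y' (hB a y' hy' 2).le)).1
        rw [h1] at a1
        exact (c a).car_conn.intermediate_value hy hy' hS.continuous.continuousOn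
          (show (0 : ℝ) ∈ Icc (S y) (S y') from ⟨by linarith only [hε, a1], by linarith only [hε, h2, a2]⟩))
      (fun r hr t ht z hz H => by
        have b := hcur r hr t ht z hz
        set y := pt (p ((c a).i r)) (d ((c a).i r)) t z
        have a1 := (abs_lt.1 (aS y (b 2))).2
        have a2 := (abs_lt.1 (aG y (b 2))).1
        have a3 : P y ^ 2 ≤ M := (le_abs_self _).trans
          (hM y (mem_closedBall_zero_iff.2 ((pi_norm_le_iff_of_nonneg hB0).2 b)))
        have a4 : 0 ≤ T y := mul_nonneg (sq_nonneg _) (by linarith only [(abs_le.1 (b 2)).1])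
        rw [H.1] at a1
        rw [H.2] at a2
        linarith only [mul_le_mul_of_nonneg_left a3 a4, mul_nonneg hM0 (show 0 ≤ 3 / 2 * ε' - T y by linarith only [a2]), hε, hε', hε2, a1])
    have hsh : p ((c a).i r) + t • d ((c a).i r) ∈ (c a).shadow := ⟨r, hr, t, ht, rfl⟩
    rcases H with H | ⟨z, hz, hpos, H⟩
    · exact Or.inl ⟨((c a).i r, t), H, hsh⟩
    have hq : ∀ w ∈ Icc z (h ((c a).i r) + t * e ((c a).i r)),
        Q (pt (p ((c a).i r)) (d ((c a).i r)) t w) ≠ 0 := by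
      intro w hw h0
      have a1 := (abs_lt.1 (aG _ (hcur r hr t ht w ⟨hz.1.trans hw.1, hw.2⟩ 2))).2
      have e1 : T (pt (p ((c a).i r)) (d ((c a).i r)) t w) = 0 := by simp [T, h0]
      linarith only [hpos w hw, hε', a1, e1]
    have e1 : cell Q (pt (p ((c a).i r)) (d ((c a).i r)) t z) = cell Q (lp p d h e ((c a).i r) t) :=
      cell_eq (isPreconnected_Icc.image _ (pt_cont2 _ _ t).continuousOn)
        (by rintro _ ⟨w, hw, rfl⟩; exact hq w hw) ⟨z, ⟨le_rfl, hz.2⟩, rfl⟩ ⟨_, ⟨hz.2, le_rfl⟩, rfl⟩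
    have e2 : cell Q (lp p d h e ((c a).i r) t) = cell Q (c a).base :=
      cell_eq (c a).car_conn (hA a ha).1 ((c a).edge_mem hr ht) (c a).base_mem
    have hf : ∀ U : V → ℝ, U (pt (p ((c a).i r)) (d ((c a).i r)) t z) = 0 ∧
        pd 2 U (pt (p ((c a).i r)) (d ((c a).i r)) t z) = 0 →
        ∃ x, FoldEv p d h e U Q θ x ∧ (x.2 0, x.2 1) ∈ (c a).shadow := fun U hU =>
      ⟨((c a).i r, pt (p ((c a).i r)) (d ((c a).i r)) t z), ⟨⟨t, z, rfl⟩, hU.1, hU.2,
        hq z ⟨le_rfl, hz.2⟩, Finset.mem_filter.2 ⟨Finset.mem_univ _, t,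
          (hA a ha).1 _ ((c a).edge_mem hr ht), e1.symm⟩, by
            rw [e1, e2]; exact (hA a ha).2.2.2⟩, hsh⟩
    exact Or.inr (H.imp (hf S) (hf G))
  obtain ⟨X1, a1, b1⟩ := charge hm (A.filter (fun a => ∃ x : ι × ℝ, S (lp p d h e x.1 x.2) = 0 ∧
    p x.1 + x.2 • d x.1 ∈ (c a).shadow)) _ _ (fun a ha => (Finset.mem_filter.1 ha).2)
  obtain ⟨X2, a2, b2⟩ := charge hm (A.filter (fun a => ∃ x, FoldEv p d h e S Q θ x ∧
    (x.2 0, x.2 1) ∈ (c a).shadow)) _ _ (fun a ha => (Finset.mem_filter.1 ha).2)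
  obtain ⟨X3, a3, b3⟩ := charge hm (A.filter (fun a => ∃ x, FoldEv p d h e G Q θ x ∧
    (x.2 0, x.2 1) ∈ (c a).shadow)) _ _ (fun a ha => (Finset.mem_filter.1 ha).2)
  have c1 := pair_count X1 Finset.univ (5 * D) (fun i _ => by
    obtain ⟨T, h1, h2⟩ := hS.roots (pt (p i) (d i) 0 (h i)) ![(d i).1, (d i).2, e i] 0
      (by simpa using lS i)
    exact ⟨T, h1, fun t ht => h2 t (by rw [← lp_eq]; exact a1 _ ht)⟩) (by simp only [Finset.mem_univ, implies_true])
  have c2 := fold_bound (by omega) hS hQ5 gS hθ X2 a2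
  have c3 := fold_bound (by omega) hG hQ5 gG hθ X3 a3
  have c4 : A.card ≤ 4 * X1.card + (4 * X2.card + 4 * X3.card) := by
    refine le_trans ?_ (add_le_add b1 (add_le_add b2 b3))
    refine le_trans (Finset.card_le_card (fun a ha => ?_)) ((Finset.card_union_le _ _).trans
      (add_le_add le_rfl (Finset.card_union_le _ _)))
    simp only [Finset.mem_union, Finset.mem_filter]
    exact (key a ha).imp (fun x => ⟨ha, x⟩) (Or.imp (fun x => ⟨ha, x⟩) (fun x => ⟨ha, x⟩))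
  have c1' : (X1.card : ℝ) ≤ Fintype.card ι * (5 * D) := by exact_mod_cast c1
  have c4' : (A.card : ℝ) ≤ 4 * X1.card + (4 * X2.card + 4 * X3.card) := by exact_mod_cast c4
  push_cast at c2 c3
  have : 0 ≤ θ * (D : ℝ) ^ 3 := by positivity
  linarith only [c1', c4', c2, c3]

/-- general position of the projected lines, as it is used -/
structure GP (p d : ι → ℝ × ℝ) : Prop where
  d0 : ∀ i, d i ≠ 0
  two : ∀ x : ℝ × ℝ, (Finset.univ.filter (fun i => ∃ s : ℝ, x = p i + s • d i)).card ≤ 2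
  uniq : ∀ i j, i ≠ j → ∀ s s' t t' : ℝ, p i + s • d i = p j + t • d j →
    p i + s' • d i = p j + t' • d j → s = s'

theorem bad_lines (hG : GP p d) {D : ℕ} {P : V → ℝ} (hP : PD D P) {y : V} (hy : P y ≠ 0) :
    (Finset.univ.filter (fun i => ∀ t, P (pt (p i) (d i) t (y 2)) = 0)).card ≤ 4 * D := by
  obtain ⟨T1, h1, r1⟩ := hP.roots y ![1, 0, 0] 0 (by simpa using hy)
  obtain ⟨T2, h2, r2⟩ := hP.roots y ![0, 1, 0] 0 (by simpa using hy)
  let W : Finset (ℝ × ℝ) := T1.image (fun u => (y 0 + u, y 1)) ∪ T2.image (fun u => (y 0, y 1 + u))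
  have hW : W.card ≤ 2 * D := (Finset.card_union_le _ _).trans
    ((add_le_add (Finset.card_image_le.trans h1) (Finset.card_image_le.trans h2)).trans (by omega))
  calc _ ≤ (W.biUnion (fun x => Finset.univ.filter (fun i => ∃ s : ℝ, x = p i + s • d i))).card :=
        Finset.card_le_card (fun i hi => ?_)
    _ ≤ ∑ x ∈ W, 2 := Finset.card_biUnion_le.trans (Finset.sum_le_sum (fun x _ => hG.two x))
    _ ≤ _ := by simp only [Finset.sum_const, smul_eq_mul]; omega
  have hi := (Finset.mem_filter.1 hi).2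
  simp only [Finset.mem_biUnion, Finset.mem_filter, Finset.mem_univ, true_and]
  by_cases h0 : (d i).2 = 0
  · have h3 : (d i).1 ≠ 0 := fun a => hG.d0 i (Prod.ext a h0)
    have e0 : (p i).1 + (y 0 - (p i).1) / (d i).1 * (d i).1 = y 0 := by field_simp; ring
    refine ⟨(y 0, y 1 + ((p i).2 - y 1)), Finset.mem_union_right _ (Finset.mem_image_of_mem _
      (r2 _ ?_)), (y 0 - (p i).1) / (d i).1, Prod.ext (by simpa only [Fin.isValue, Prod.fst_add, Prod.smul_fst, smul_eq_mul] using e0.symm) (by simp [h0])⟩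
    refine (congrArg P ?_).trans (hi ((y 0 - (p i).1) / (d i).1))
    funext k; fin_cases k <;> simp [pt, h0, e0]
  · have e0 : (p i).2 + (y 1 - (p i).2) / (d i).2 * (d i).2 = y 1 := by field_simp; ring
    refine ⟨(y 0 + ((p i).1 + (y 1 - (p i).2) / (d i).2 * (d i).1 - y 0), y 1),
      Finset.mem_union_left _ (Finset.mem_image_of_mem _
      (r1 _ ?_)), (y 1 - (p i).2) / (d i).2, Prod.ext (by simp) (by simpa using e0.symm)⟩
    refine (congrArg P ?_).trans (hi ((y 1 - (p i).2) / (d i).2))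
    funext k; fin_cases k <;> simp [pt, e0]

theorem flat (hG : GP p d) {D : ℕ} {P : V → ℝ} (hP : PD D P) (h0 : ∃ y, P y ≠ 0)
    {c : α → Cyc p d h e} (hm : Mult c) (A : Finset α) (hA : ∀ a ∈ A, ∀ y ∈ (c a).car, P y = 0) :
    A.card ≤ 20 * Fintype.card ι * D := by
  obtain ⟨y, hy⟩ := h0
  obtain ⟨X, a1, b1⟩ : ∃ X : Finset (ι × ℝ), (∀ x ∈ X, P (pt (p x.1) (d x.1) x.2 (y 2)) = 0 ∧
      ∃ j, x.1 ≠ j ∧ ∃ s : ℝ, p x.1 + x.2 • d x.1 = p j + s • d j) ∧ A.card ≤ 4 * X.card := by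
    refine charge hm A _ (fun x => p x.1 + x.2 • d x.1)
      (fun a ha => ⟨((c a).i 0, (c a).t 0), ⟨?_, (c a).i 1, fun hi => ?_, _, (c a).link 0⟩,
        0, (c a).hk, _, right_mem_uIcc, rfl⟩)
    · by_contra hne
      have e1 : ∀ z : ℝ, pt (p ((c a).i 0)) (d ((c a).i 0)) ((c a).t 0) 0 + z • ![0, 0, 1] =
        pt (p ((c a).i 0)) (d ((c a).i 0)) ((c a).t 0) z := fun z => by
          funext k; fin_cases k <;> simp [pt]
      obtain ⟨T, -, h2⟩ := hP.roots _ ![0, 0, 1] (y 2) (by rw [e1]; exact hne)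
      exact Set.Icc_infinite ((c a).up 0) (T.finite_toSet.subset (fun z hz =>
        h2 z (by rw [e1]; exact hA a ha _ ((c a).jump_mem (c a).hk hz))))
    · have l := (c a).link 0
      have u := (c a).up 0
      simp only [zero_add] at l u hi
      rw [← hi] at l u
      have := smul_left_injective ℝ (hG.d0 _) (add_left_cancel l)
      rw [this] at u
      exact lt_irrefl _ u
  let bad := Finset.univ.filter (fun i => ∀ t, P (pt (p i) (d i) t (y 2)) = 0)
  have e1 : ∀ i (t : ℝ), pt (p i) (d i) 0 (y 2) + t • ![(d i).1, (d i).2, 0] =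
      pt (p i) (d i) t (y 2) := fun i t => by funext k; fin_cases k <;> simp [pt]
  have c1 := pair_count (X.filter (fun x => x.1 ∉ bad)) badᶜ D (fun i hi => by
    obtain ⟨t0, ht0⟩ : ∃ t, P (pt (p i) (d i) t (y 2)) ≠ 0 := by simpa only [Fin.isValue, ne_eq, bad, Finset.compl_filter, not_forall, Finset.mem_filter, Finset.mem_univ, true_and] using hi
    obtain ⟨T, h1, h2⟩ := hP.roots (pt (p i) (d i) 0 (y 2)) ![(d i).1, (d i).2, 0] t0 (by rwa [e1])
    exact ⟨T, h1, fun t ht => h2 t (by rw [e1]; exact (a1 _ (Finset.mem_filter.1 ht).1).1)⟩)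
    (fun x hx => Finset.mem_compl.2 (Finset.mem_filter.1 hx).2)
  have c2 := pair_count (X.filter (fun x => x.1 ∈ bad)) bad (Fintype.card ι) (fun i _ => by
    refine ⟨Finset.univ.image (fun j => if H : ∃ t : ℝ, ∃ s : ℝ, p i + t • d i = p j + s • d j
      then H.choose else 0), Finset.card_image_le, fun t ht => ?_⟩
    obtain ⟨j, hj, s, hs⟩ := (a1 _ (Finset.mem_filter.1 ht).1).2
    have H : ∃ t : ℝ, ∃ s : ℝ, p i + t • d i = p j + s • d j := ⟨t, s, hs⟩
    refine Finset.mem_image.2 ⟨j, Finset.mem_univ _, ?_⟩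
    rw [dif_pos H]
    exact hG.uniq i j hj _ _ _ _ H.choose_spec.choose_spec hs)
    (fun x hx => (Finset.mem_filter.1 hx).2)
  have c3 := Finset.card_filter_add_card_filter_not (s := X) (fun x => x.1 ∈ bad)
  have c4 := Nat.mul_le_mul_right (Fintype.card ι) (bad_lines hG hP hy)
  have c5 := Nat.mul_le_mul_right D (Finset.card_le_univ badᶜ)
  linarith only [b1, c1, c2, c3, c4, c5]

theorem level (hG : GP p d) {D : ℕ} (hD : 1 ≤ D) {Q P : V → ℝ} (hQ : PD D Q) (hP : PD D P)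
    (h0 : ∃ y, P y ≠ 0) {c : α → Cyc p d h e} (hm : Mult c) {θ N : ℝ} (hθ : 0 < θ) (hN0 : 0 ≤ N)
    (hN : ∀ y, ((Finset.univ.filter (fun a => (c a).base ∈ cell Q y)).card : ℝ) ≤ N) :
    ((Finset.univ.filter (fun a => ∀ y ∈ (c a).car, Q y ≠ 0)).card : ℝ) ≤
      (Finset.univ.filter (fun a => ∀ y ∈ (c a).car, P y ≠ 0)).card +
      (Fintype.card ι * (D + 1) * N / θ + 40 * Fintype.card ι * D + 10 ^ 9 * θ * D ^ 3) := by
  have c1 := heavy hQ c hθ hN0 hN (Finset.univ.filter (fun a => Q (c a).base ≠ 0 ∧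
    θ < (LL p d h e Q (cell Q (c a).base)).card)) (fun a ha => (Finset.mem_filter.1 ha).2)
  have c2 := light hD hQ hP hm hθ.le (Finset.univ.filter (fun a => (∀ y ∈ (c a).car, Q y ≠ 0) ∧
    (∃ y ∈ (c a).car, P y = 0) ∧ (∃ y ∈ (c a).car, P y ≠ 0) ∧
      ((LL p d h e Q (cell Q (c a).base)).card : ℝ) ≤ θ)) (fun a ha => (Finset.mem_filter.1 ha).2)
  have c3 := flat hG hP h0 hm (Finset.univ.filter (fun a => ∀ y ∈ (c a).car, P y = 0))
    (fun a ha => (Finset.mem_filter.1 ha).2)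
  have c4 : (Finset.univ.filter (fun a => ∀ y ∈ (c a).car, Q y ≠ 0)).card ≤
      (Finset.univ.filter (fun a => ∀ y ∈ (c a).car, P y ≠ 0)).card +
      ((Finset.univ.filter (fun a => Q (c a).base ≠ 0 ∧
        θ < (LL p d h e Q (cell Q (c a).base)).card)).card +
      ((Finset.univ.filter (fun a => (∀ y ∈ (c a).car, Q y ≠ 0) ∧
        (∃ y ∈ (c a).car, P y = 0) ∧ (∃ y ∈ (c a).car, P y ≠ 0) ∧
        ((LL p d h e Q (cell Q (c a).base)).card : ℝ) ≤ θ)).card +
      (Finset.univ.filter (fun a => ∀ y ∈ (c a).car, P y = 0)).card)) := by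
    refine le_trans (Finset.card_le_card (fun a ha => ?_)) ((Finset.card_union_le _ _).trans
      (add_le_add le_rfl ((Finset.card_union_le _ _).trans
        (add_le_add le_rfl (Finset.card_union_le _ _)))))
    simp only [Finset.mem_union, Finset.mem_filter, Finset.mem_univ, true_and] at ha ⊢
    by_contra hn
    simp only [not_or, not_and, not_forall, not_not, not_lt, exists_prop] at hn
    exact hn.2.2.1 ha hn.1 hn.2.2.2 (hn.2.1 (ha _ (c a).base_mem))
  have c3' := (Nat.cast_le (α := ℝ)).2 c3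
  have c4' := (Nat.cast_le (α := ℝ)).2 c4
  push_cast at c3' c4'
  linarith only [c1, c2, c3', c4']

end Pool.Agent.MP_800a79_co.H62

end

-- part MP_800a79_co.H62.Asm
section

/-! Summing the levels: a family of depth cycles of bounded overlap has `O(m^{3/2})` members. -/

set_option autoImplicit false

namespace Pool.Agent.MP_800a79_co.H62

open Filter Topology Set Classical

variable {ι α : Type*} [Fintype ι] [Fintype α] {p d : ι → ℝ × ℝ} {h e : ι → ℝ}

theorem cycles_pow (hG : GP p d) {c : α → Cyc p d h e} (hm : Mult c) {J : ℕ}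
    (hJ : Fintype.card α < 8 ^ J) : (Fintype.card α : ℝ) ≤ 10 ^ 17 * Fintype.card ι * 2 ^ J := by
  rcases isEmpty_or_nonempty α with hα | ⟨⟨a0⟩⟩
  · simp only [Fintype.card_eq_zero, CharP.cast_eq_zero, Nat.ofNat_pos, pow_pos, mul_nonneg_iff_of_pos_right, pow_succ_pos, mul_nonneg_iff_of_pos_left, Nat.cast_nonneg]
  have hι : (0 : ℝ) < Fintype.card ι := by
    have : Nonempty ι := ⟨(c a0).i 0⟩
    exact_mod_cast Fintype.card_pos
  obtain ⟨Q, Q0, Q1, Q2, Q3⟩ : ∃ Q : ℕ → V → ℝ, (∀ y, Q 0 y ≠ 0) ∧ (∀ j, PD (18 * 2 ^ j) (Q j)) ∧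
      (∀ j, ∃ y, Q j y ≠ 0) ∧ ∀ j y, 8 ^ j *
        (Finset.univ.filter (fun a => (c a).base ∈ cell (Q j) y)).card ≤ Fintype.card α := by
    choose R R1 R2 R3 using gk (fun a => (c a).base)
    refine ⟨fun j => if j = 0 then fun _ => 1 else R j, by simp, fun j => ?_, fun j => ?_,
      fun j y => ?_⟩
    · by_cases hj : j = 0
      · simp only [hj, if_true]; exact PD.const _ _
      · simp only [hj, if_false]; exact R1 j
    · by_cases hj : j = 0
      · simp [hj]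
      · simp only [hj, if_false]; exact R2 j
    · by_cases hj : j = 0
      · simpa only [hj, pow_zero, ↓ reduceIte, one_mul] using Finset.card_le_univ _
      · simp only [hj, if_false]
        exact R3 j _ isPreconnected_connectedComponentIn (connectedComponentIn_subset _ _)
  set F : ℝ := (Fintype.card α : ℝ) with hF
  set m : ℝ := (Fintype.card ι : ℝ)
  have hF0 : 0 ≤ F := by positivity
  let W : ℕ → ℕ := fun j => (Finset.univ.filter (fun a => ∀ y ∈ (c a).car, Q j y ≠ 0)).card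
  have step : ∀ j, ∀ A : ℝ, 0 < A → (W j : ℝ) ≤ W (j + 1) +
      (F / A + 1440 * m * 2 ^ j + 2 * 10 ^ 15 * m * A * 2 ^ j) := by
    intro j A hA
    have h2 : (1 : ℝ) ≤ 2 ^ j := one_le_pow₀ one_le_two
    have h8 : (8 : ℝ) ^ j = (2 ^ j) ^ 3 := by rw [← pow_mul, mul_comm, pow_mul]; norm_num
    have := level hG (D := 18 * 2 ^ (j + 1)) (Nat.one_le_iff_ne_zero.2 (by positivity))
      ((Q1 j).mono (by rw [pow_succ]; omega)) (Q1 (j + 1)) (Q2 (j + 1)) hm
      (θ := A * m * (36 * 2 ^ j + 1) / 8 ^ j) (N := F / 8 ^ j) (by positivity) (by positivity)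
      (fun y => by
        rw [le_div_iff₀ (by positivity), mul_comm, hF]
        exact_mod_cast Q3 j y)
    refine this.trans (add_le_add le_rfl ?_)
    have eD : ((18 * 2 ^ (j + 1) : ℕ) : ℝ) = 36 * 2 ^ j := by push_cast; ring
    rw [eD, h8]
    generalize (2 : ℝ) ^ j = u at h2
    have e1 : m * (36 * u + 1) * (F / u ^ 3) / (A * m * (36 * u + 1) / u ^ 3) = F / A := by
      field_simp
    have e2 : 10 ^ 9 * (A * m * (36 * u + 1) / u ^ 3) * (36 * u) ^ 3 =
        10 ^ 9 * 36 ^ 3 * (m * A) * (36 * u + 1) := by field_simp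
    rw [e1, e2]
    nlinarith only [mul_le_mul_of_nonneg_left h2 (mul_pos hι hA).le, hA]
  have run : ∀ j, F ≤ W j + (F / 2 * (2 / 3) ^ J * (3 / 2) ^ j + 1440 * m * 2 ^ j +
      24 * 10 ^ 15 * m * (3 / 2) ^ J * (4 / 3) ^ j) := by
    intro j
    induction j with
    | zero =>
      have : W 0 = Fintype.card α := by simp only [W, ne_eq, Q0, not_false_eq_true, implies_true, Finset.filter_true, Finset.card_univ]
      rw [this]
      exact le_add_of_nonneg_right (by positivity)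
    | succ j ih =>
      have := step j (4 * (3 / 2) ^ J * (2 / 3) ^ j) (by positivity)
      have e1 : F / (4 * (3 / 2) ^ J * (2 / 3) ^ j) = F / 4 * (2 / 3) ^ J * (3 / 2) ^ j := by
        simp only [div_pow]; field_simp
      have e2 : ((4 : ℝ) / 3) ^ j = (2 / 3) ^ j * 2 ^ j := by rw [← mul_pow]; norm_num
      rw [e1] at this
      simp only [pow_succ _ j, e2] at ih ⊢
      linarith
  have hW : W J = 0 := by
    refine Finset.card_eq_zero.2 (Finset.filter_eq_empty_iff.2 (fun a _ ha => ?_))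
    have h1 := Q3 J (c a).base
    have h2 : 0 < (Finset.univ.filter (fun b => (c b).base ∈ cell (Q J) (c a).base)).card :=
      Finset.card_pos.2 ⟨a, Finset.mem_filter.2 ⟨Finset.mem_univ _,
        mem_connectedComponentIn (ha _ (c a).base_mem)⟩⟩
    exact absurd ((Nat.le_mul_of_pos_right _ h2).trans h1) (not_le.2 hJ)
  have := run J
  have e1 : F / 2 * (2 / 3) ^ J * (3 / 2) ^ J = F / 2 := by rw [mul_assoc, ← mul_pow]; norm_num
  have e2 : 24 * 10 ^ 15 * m * (3 / 2) ^ J * (4 / 3) ^ J = 24 * 10 ^ 15 * m * 2 ^ J := by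
    rw [mul_assoc, ← mul_pow]; norm_num
  rw [hW, e1, e2] at this
  have : 0 ≤ m * 2 ^ J := by positivity
  push_cast at *
  linarith

theorem cycles_bound (hG : GP p d) {c : α → Cyc p d h e} (hm : Mult c) :
    (Fintype.card α : ℝ) ≤ 10 ^ 26 * (Fintype.card ι : ℝ) ^ ((3 : ℝ) / 2) := by
  rcases Nat.eq_zero_or_pos (Fintype.card α) with h0 | h0
  · rw [h0]; simp only [CharP.cast_eq_zero, Nat.ofNat_pos, pow_succ_pos, mul_nonneg_iff_of_pos_left]; positivity
  have h1 := cycles_pow hG hm (Nat.lt_pow_succ_log_self (b := 8) (by norm_num) (Fintype.card α))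
  have h2 : ((8 ^ Nat.log 8 (Fintype.card α) : ℕ) : ℝ) ≤ Fintype.card α :=
    Nat.cast_le.2 (Nat.pow_log_le_self 8 h0.ne')
  have h3 : (0 : ℝ) < Fintype.card α := by exact_mod_cast h0
  have hm0 : (0 : ℝ) ≤ Fintype.card ι := by positivity
  generalize Nat.log 8 (Fintype.card α) = J at h1 h2
  generalize (Fintype.card α : ℝ) = F at *
  generalize (Fintype.card ι : ℝ) = m at *
  have h8 : ((8 ^ J : ℕ) : ℝ) = (2 ^ J) ^ 3 := by
    push_cast; rw [← pow_mul, mul_comm, pow_mul]; norm_num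
  rw [h8] at h2
  rw [pow_succ] at h1
  have h4 : F ^ 3 ≤ (10 ^ 17 * m * (2 ^ J * 2)) ^ 3 := pow_le_pow_left₀ h3.le h1 3
  have h5 : F ^ 2 ≤ 8 * 10 ^ 51 * m ^ 3 := by
    refine le_of_mul_le_mul_right ?_ h3
    linarith only [mul_le_mul_of_nonneg_left h2 (pow_nonneg hm0 3), h4]
  have h6 : (m ^ ((3 : ℝ) / 2)) ^ 2 = m ^ 3 := by
    rw [← Real.rpow_natCast, ← Real.rpow_mul hm0]; norm_num
  refine (pow_le_pow_iff_left₀ h3.le (by positivity) two_ne_zero).1 ?_
  rw [mul_pow, h6]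
  nlinarith only [h5]

end Pool.Agent.MP_800a79_co.H62

end

-- part MP_800a79_co.H62.Cells
section

/-! Cells of a planar arrangement of lines; an elementary cell carries a depth cycle. -/

set_option autoImplicit false

namespace Pool.Agent.MP_800a79_co.H62

open Filter Topology Set Classical

variable {ι : Type*} {p d : ι → ℝ × ℝ} {h e : ι → ℝ}

def det2 (u v : ℝ × ℝ) : ℝ := u.1 * v.2 - u.2 * v.1

/-- the affine function that vanishes on the projected line `i` -/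
def sd (p d : ι → ℝ × ℝ) (i : ι) (x : ℝ × ℝ) : ℝ := det2 (d i) (x - p i)

theorem sd_add (i : ι) (x u : ℝ × ℝ) (τ : ℝ) :
    sd p d i (x + τ • u) = sd p d i x + τ * det2 (d i) u := by
  simp only [sd, det2, Prod.snd_sub, Prod.snd_add, Prod.smul_snd, smul_eq_mul, Prod.fst_sub, Prod.fst_add, Prod.smul_fst]; ring

theorem sd_cont (i : ι) : Continuous (sd p d i) := by unfold sd det2; fun_prop

theorem sd_zero {i : ι} (hd : d i ≠ 0) (x : ℝ × ℝ) :
    sd p d i x = 0 ↔ ∃ s : ℝ, x = p i + s • d i := by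
  refine ⟨fun H => ?_, by rintro ⟨s, rfl⟩; simp [sd, det2]; ring⟩
  simp only [sd, det2, Prod.fst_sub, Prod.snd_sub] at H
  by_cases h0 : (d i).2 = 0
  · have h3 : (d i).1 ≠ 0 := fun a => hd (Prod.ext a h0)
    rw [h0, zero_mul, sub_zero, mul_eq_zero, or_iff_right h3] at H
    refine ⟨(x.1 - (p i).1) / (d i).1, Prod.ext ?_ ?_⟩
    · simp [div_mul_cancel₀ _ h3]
    · simp [h0]; linarith
  · refine ⟨(x.2 - (p i).2) / (d i).2, Prod.ext ?_ ?_⟩
    · simp; field_simp; linarith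
    · simp [div_mul_cancel₀ _ h0]

/-- the open and the closed sign cell of `q` -/
def Ko (p d : ι → ℝ × ℝ) (q : ℝ × ℝ) : Set (ℝ × ℝ) := {x | ∀ i, 0 < sd p d i q * sd p d i x}
def Kb (p d : ι → ℝ × ℝ) (q : ℝ × ℝ) : Set (ℝ × ℝ) := {x | ∀ i, 0 ≤ sd p d i q * sd p d i x}

theorem sd_comb (i : ι) (x y : ℝ × ℝ) {a b : ℝ} (hab : a + b = 1) :
    sd p d i (a • x + b • y) = a * sd p d i x + b * sd p d i y := by
  have : b = 1 - a := by linarith
  subst this
  simp only [sd, det2, Prod.snd_sub, Prod.snd_add, Prod.smul_snd, smul_eq_mul, Prod.fst_sub, Prod.fst_add, Prod.smul_fst]; ring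

theorem Kb_convex (q : ℝ × ℝ) : Convex ℝ (Kb p d q) := fun x hx y hy a b ha hb hab i => by
  rw [sd_comb i x y hab]
  linarith only [mul_nonneg ha (hx i), mul_nonneg hb (hy i)]

theorem Ko_convex (q : ℝ × ℝ) : Convex ℝ (Ko p d q) := fun x hx y hy a b ha hb hab i => by
  rw [sd_comb i x y hab]
  rcases ha.eq_or_lt with rfl | ha
  · have : b = 1 := by linarith
    simpa only [zero_mul, this, one_mul, zero_add, gt_iff_lt] using hy i
  · linarith only [mul_pos ha (hx i), mul_nonneg hb (hy i).le]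

theorem mem_U (hd : ∀ i, d i ≠ 0) (x : ℝ × ℝ) :
    x ∈ (⋃ i, Set.range (fun s : ℝ => p i + s • d i))ᶜ ↔ ∀ i, sd p d i x ≠ 0 := by
  simp only [mem_compl_iff, mem_iUnion, mem_range, not_exists, ne_eq, sd_zero (hd _), eq_comm]

theorem comp_eq (hd : ∀ i, d i ≠ 0) {q : ℝ × ℝ} (hq : ∀ i, sd p d i q ≠ 0) :
    connectedComponentIn (⋃ i, Set.range (fun s : ℝ => p i + s • d i))ᶜ q = Ko p d q := by
  refine Subset.antisymm (fun x hx i => ?_) ((Ko_convex q).isPreconnected.subset_connectedComponentIn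
    (fun i => mul_self_pos.2 (hq i)) (fun x hx => (mem_U hd x).2 (fun i h0 => by
      simpa [h0] using hx i)))
  by_contra hn
  obtain ⟨w, hw, hw0⟩ := isPreconnected_connectedComponentIn.intermediate_value hx
    (mem_connectedComponentIn ((mem_U hd q).2 hq)) (f := fun x => sd p d i q * sd p d i x)
    (continuous_const.mul (sd_cont i)).continuousOn ⟨not_lt.1 hn, mul_self_nonneg _⟩
  exact mul_ne_zero (hq i) ((mem_U hd w).1 (connectedComponentIn_subset _ _ hw) i) hw0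

theorem closure_Ko {q : ℝ × ℝ} (hq : ∀ i, sd p d i q ≠ 0) : closure (Ko p d q) = Kb p d q := by
  refine Subset.antisymm (closure_minimal (fun x hx i => (hx i).le) ?_) (fun x hx => ?_)
  · simp only [Kb, ofPred_forall]
    exact isClosed_iInter (fun i => isClosed_le continuous_const (continuous_const.mul (sd_cont i)))
  · have hc : Continuous (fun τ : ℝ => (1 - τ) • x + τ • q) := by fun_prop
    refine mem_closure_of_tendsto (b := 𝓝[>] (0 : ℝ))
      ((hc.tendsto' 0 x (by simp)).mono_left nhdsWithin_le_nhds) ?_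
    filter_upwards [Ioo_mem_nhdsGT one_pos] with τ hτ i
    rw [sd_comb i x q (by ring)]
    linarith only [mul_nonneg (sub_nonneg.2 hτ.2.le) (hx i), mul_pos hτ.1 (mul_self_pos.2 (hq i))]

variable [Fintype ι]

theorem shoot {q x u : ℝ × ℝ} (hb : Bornology.IsBounded (Kb p d q))
    (hx : x ∈ Kb p d q) (hu : u ≠ 0) : ∃ j, ∃ τ : ℝ, sd p d j q * det2 (d j) u < 0 ∧
      sd p d j q * sd p d j (x + τ • u) = 0 ∧ x + τ • u ∈ Kb p d q := by
  rcases (Finset.univ.filter (fun j => sd p d j q * det2 (d j) u < 0)).eq_empty_or_nonempty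
    with h0 | h0
  · obtain ⟨R, hR⟩ := hb.exists_norm_le
    have hu' := norm_pos_iff.2 hu
    have hx' := hR x hx
    have hτ : 0 ≤ (R + ‖x‖ + 1) / ‖u‖ := div_nonneg (by linarith [norm_nonneg x]) hu'.le
    have h1 := hR (x + ((R + ‖x‖ + 1) / ‖u‖) • u) (fun i => by
      have := not_lt.1 (Finset.filter_eq_empty_iff.1 h0 (Finset.mem_univ i))
      rw [sd_add]
      linarith only [hx i, mul_nonneg hτ this])
    have h2 := norm_sub_le (x + ((R + ‖x‖ + 1) / ‖u‖) • u) x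
    rw [add_sub_cancel_left, norm_smul, Real.norm_of_nonneg hτ, div_mul_cancel₀ _ hu'.ne'] at h2
    linarith
  obtain ⟨j, hj, hmin⟩ := Finset.exists_min_image _
    (fun j => sd p d j q * sd p d j x / -(sd p d j q * det2 (d j) u)) h0
  have hj' := neg_pos.2 (Finset.mem_filter.1 hj).2
  have hτ := div_nonneg (hx j) hj'.le
  have e1 := div_mul_cancel₀ (sd p d j q * sd p d j x) hj'.ne'
  refine ⟨j, sd p d j q * sd p d j x / -(sd p d j q * det2 (d j) u), (Finset.mem_filter.1 hj).2,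
    ?_, fun i => ?_⟩
  · rw [sd_add]; linarith
  · rw [sd_add]
    by_cases hi : sd p d i q * det2 (d i) u < 0
    · have := hmin i (Finset.mem_filter.2 ⟨Finset.mem_univ _, hi⟩)
      rw [le_div_iff₀ (neg_pos.2 hi)] at this
      linarith only [this]
    · linarith only [hx i, mul_nonneg hτ (not_lt.1 hi)]

theorem cyc_exists {K : Set (ℝ × ℝ)} (hK : Convex ℝ K) (h0 : ∃ i, ∃ s : ℝ, p i + s • d i ∈ K)
    (H : ∀ i, (∃ s : ℝ, p i + s • d i ∈ K) → ∃ j, ∃ t s : ℝ, p i + t • d i = p j + s • d j ∧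
      p i + t • d i ∈ K ∧ h i + t * e i < h j + s * e j) :
    ∃ c : Cyc p d h e, c.shadow ⊆ K := by
  let I := {i // ∃ s : ℝ, p i + s • d i ∈ K}
  choose g t s h1 h2 h3 using fun i : I => H i.1 i.2
  let f : I → I := fun i => ⟨g i, s i, h1 i ▸ h2 i⟩
  obtain ⟨i0, k, hk, hp⟩ : ∃ i0 : I, ∃ k, 0 < k ∧ f^[k] i0 = i0 := by
    obtain ⟨i, hi⟩ := h0
    obtain ⟨a, b, hab, he⟩ := Finite.exists_ne_map_eq_of_infinite (fun n : ℕ => f^[n] ⟨i, hi⟩)
    wlog hlt : a < b generalizing a b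
    · exact this b a hab.symm he.symm (by omega)
    refine ⟨f^[a] ⟨i, hi⟩, b - a, by omega, ?_⟩
    rw [← Function.iterate_add_apply, Nat.sub_add_cancel hlt.le]
    exact he.symm
  refine ⟨⟨k, hk, fun r => g (f^[r] i0), fun r => s (f^[r] i0), fun r => t (f (f^[r] i0)),
    by simp [hp], by simp [hp], fun r => ?_, fun r => ?_⟩, ?_⟩
  · rw [Function.iterate_succ_apply']; exact h1 (f (f^[r] i0))
  · rw [Function.iterate_succ_apply']; exact h3 (f (f^[r] i0))
  · rintro _ ⟨r, -, τ, hτ, rfl⟩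
    have a1 : p (g (f^[r] i0)) + s (f^[r] i0) • d (g (f^[r] i0)) ∈ K := h1 _ ▸ h2 _
    have a2 : p (g (f^[r] i0)) + t (f (f^[r] i0)) • d (g (f^[r] i0)) ∈ K := h2 (f (f^[r] i0))
    rw [← segment_eq_uIcc] at hτ
    obtain ⟨a, b, ha, hb, hab, rfl⟩ := hτ
    convert hK a1 a2 ha hb hab using 1
    have : b = 1 - a := by linarith only [hab]
    subst this
    simp only [smul_eq_mul]
    module

/-- the orientation of the vertex `v` of the lines `i, j` seen from `q` -/
def ori (d : ι → ℝ × ℝ) (q v : ℝ × ℝ) (i j : ι) : ℝ :=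
  ((d j).1 * (d i).2 - (d j).2 * (d i).1) * ((d j).1 * (q - v).2 - (d j).2 * (q - v).1) *
    ((q - v).1 * (d i).2 - (q - v).2 * (d i).1)

theorem elem_cyc (hd : ∀ i, d i ≠ 0) {q : ℝ × ℝ} (hq : ∀ i, sd p d i q ≠ 0)
    (hb : Bornology.IsBounded (Kb p d q)) {σ : ℝ} (hσ : σ ≠ 0)
    (H : ∀ i j, ∀ s t : ℝ, i ≠ j → p i + s • d i = p j + t • d j → p i + s • d i ∈ Kb p d q →
      0 < σ * ori d q (p i + s • d i) i j → h i + s * e i < h j + t * e j) :
    ∃ c : Cyc p d h e, c.shadow ⊆ Kb p d q := by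
  refine cyc_exists (Kb_convex q) ?_ (fun i ⟨s, hs⟩ => ?_)
  · obtain ⟨j, τ, -, h2, h3⟩ := shoot hb (x := q) (u := (1, 0)) (fun i => mul_self_nonneg _) (by simp)
    obtain ⟨s, hs⟩ := (sd_zero (hd j) _).1 ((mul_eq_zero.1 h2).resolve_left (hq j))
    exact ⟨j, s, hs ▸ h3⟩
  obtain ⟨j, τ, h1, h2, h3⟩ := shoot hb hs (u := (σ * sd p d i q) • d i)
    (smul_ne_zero (mul_ne_zero hσ (hq i)) (hd i))
  obtain ⟨t, ht⟩ := (sd_zero (hd j) _).1 ((mul_eq_zero.1 h2).resolve_left (hq j))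
  rw [smul_smul, add_assoc, ← add_smul] at h3 ht
  refine ⟨j, _, t, ht, h3, H i j _ t ?_ ht h3 ?_⟩
  · rintro rfl
    simp only [det2, Prod.smul_fst, Prod.smul_snd, smul_eq_mul] at h1
    linarith only [h1]
  · have a1 : (d j).1 * (q - (p j + t • d j)).2 - (d j).2 * (q - (p j + t • d j)).1 = sd p d j q := by
      simp [sd, det2]; ring
    have a2 : ∀ s : ℝ, (q - (p i + s • d i)).1 * (d i).2 - (q - (p i + s • d i)).2 * (d i).1 =
        -sd p d i q := fun s => by simp [sd, det2]; ring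
    rw [ori, a2, ht, a1]
    simp only [det2, Prod.smul_fst, Prod.smul_snd, smul_eq_mul] at h1
    linarith

/-- at most four cells touch a point that lies on at most two lines -/
theorem four_cells (hG : GP p d) (x : ℝ × ℝ) (F : Finset (Set (ℝ × ℝ)))
    (hF : ∀ C ∈ F, ∃ q, (∀ i, sd p d i q ≠ 0) ∧ C = Ko p d q ∧ x ∈ Kb p d q) : F.card ≤ 4 := by
  let Z := Finset.univ.filter (fun i => ∃ s : ℝ, x = p i + s • d i)
  calc F.card ≤ (Z.powerset.image (fun S => {y | ∀ i, 0 < (if i ∈ S then 1 else if i ∈ Z then -1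
        else sd p d i x) * sd p d i y})).card := Finset.card_le_card (fun C hC => ?_)
    _ ≤ 2 ^ Z.card := Finset.card_image_le.trans (Finset.card_powerset Z).le
    _ ≤ 2 ^ 2 := Nat.pow_le_pow_right two_pos (hG.two x)
  obtain ⟨q, hq, rfl, hx⟩ := hF C hC
  refine Finset.mem_image.2 ⟨Z.filter (fun i => 0 < sd p d i q),
    Finset.mem_powerset.2 (Finset.filter_subset _ _), ?_⟩
  ext y
  refine forall_congr' (fun i => ?_)
  have key : ∀ a b : ℝ, 0 < a * b → ∀ w, 0 < a * w → 0 < b * w := fun a b hab w hw => by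
    by_contra hn
    linarith only [mul_pos hab hw, mul_nonneg (mul_self_nonneg a) (neg_nonneg.2 (not_lt.1 hn))]
  refine ⟨key _ _ ?_ _, key _ _ ?_ _⟩ <;> [skip; rw [mul_comm]] <;>
  · split_ifs with h1 h2
    · simpa using (Finset.mem_filter.1 h1).2
    · have : ¬ 0 < sd p d i q := fun a => h1 (Finset.mem_filter.2 ⟨h2, a⟩)
      simpa only [neg_mul, one_mul, Left.neg_pos_iff, gt_iff_lt] using lt_of_le_of_ne (not_lt.1 this) (hq i)
    · have : sd p d i x ≠ 0 := fun a =>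
        h2 (Finset.mem_filter.2 ⟨Finset.mem_univ _, (sd_zero (hG.d0 i) x).1 a⟩)
      rw [mul_comm]
      exact lt_of_le_of_ne (hx i) (mul_ne_zero (hq i) this).symm

theorem gp_of (h1 : ∀ i, d i ≠ 0) (h2 : ∀ i j, i ≠ j → ∀ c : ℝ, ¬ (d i = c • d j ∧ e i = c * e j))
    (h3 : ∀ i j, i ≠ j → ∀ s t : ℝ,
      ¬ (p i + s • d i = p j + t • d j ∧ h i + s * e i = h j + t * e j))
    (h4 : ∀ i j k, i ≠ j → j ≠ k → i ≠ k → ∀ x : ℝ × ℝ, ¬ ((∃ s : ℝ, x = p i + s • d i) ∧
      (∃ s : ℝ, x = p j + s • d j) ∧ (∃ s : ℝ, x = p k + s • d k))) : GP p d := by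
  refine ⟨h1, fun x => ?_, fun i j hij s s' t t' a b => ?_⟩
  · by_contra hn
    obtain ⟨i, j, k, hi, hj, hk, a, b, c⟩ := Finset.two_lt_card_iff.1 (not_le.1 hn)
    exact h4 i j k a c b x ⟨(Finset.mem_filter.1 hi).2, (Finset.mem_filter.1 hj).2,
      (Finset.mem_filter.1 hk).2⟩
  · by_contra hn
    have hs : s - s' ≠ 0 := sub_ne_zero.2 hn
    have e1 : d i = ((t - t') / (s - s')) • d j := by
      have : (s - s') • d i = (t - t') • d j := by
        linear_combination (norm := module) a - b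
      rw [div_eq_inv_mul, mul_smul, ← this, smul_smul, inv_mul_cancel₀ hs, one_smul]
    generalize (t - t') / (s - s') = c at e1
    have e2 : e i - c * e j ≠ 0 := fun z => h2 i j hij c ⟨e1, sub_eq_zero.1 z⟩
    let u := (h j + t * e j - (h i + s * e i)) / (e i - c * e j)
    have e3 : u * (e i - c * e j) = h j + t * e j - (h i + s * e i) := div_mul_cancel₀ _ e2
    refine h3 i j hij (s + u) (t + u * c) ⟨?_, by linarith⟩
    linear_combination (norm := module) a + u • e1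

end Pool.Agent.MP_800a79_co.H62

end
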